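import Mathlib

/-! Calculus lemmas for the two parameter inequality: short intervals, trapezoid sums, corner. -/

set_option autoImplicit false

open MeasureTheory Set Real

namespace Pool.Agent.P.MP_b7645d_gt.X

/-- the integrand -/
noncomputable def gg (I : ℝ → ℝ) (p q u : ℝ) : ℝ := √(1 - ((p + q * u) / I u) ^ 2)

/-- the inequality on one interval -/
def CalAt (I : ℝ → ℝ) (a b : ℝ) : Prop :=
  ∃ p q : ℝ, ∀ v ∈ Icc a b, |p + q * v| ≤ I v ∧ I v - (p + q * v) ≤ ∫ u in a..b, gg I p q u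

/-- a symmetric concave function with slope function `s` -/
structure Good (I s : ℝ → ℝ) : Prop where
  cont : Continuous I
  conts : Continuous s
  up : ∀ x v, I v ≤ I x + s x * (v - x)
  z0 : I 0 = 0
  sym : ∀ v, I (1 - v) = I v
  ten : 19 / 40 ≤ I (1 / 10)

variable {I s : ℝ → ℝ}

lemma gg_nonneg (p q u : ℝ) : 0 ≤ gg I p q u := sqrt_nonneg _

lemma gg_int (hI : Continuous I) (p q a b : ℝ) : IntervalIntegrable (gg I p q) volume a b := by
  refine (intervalIntegrable_const (c := (1 : ℝ))).mono_fun' ?_ (ae_of_all _ fun u => ?_)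
  · have h : Measurable (gg I p q) := by
      have := hI.measurable
      unfold gg; fun_prop
    exact h.aestronglyMeasurable
  · show ‖gg I p q u‖ ≤ 1
    rw [Real.norm_eq_abs, abs_of_nonneg (gg_nonneg _ _ _), gg, Real.sqrt_le_left zero_le_one]
    nlinarith [sq_nonneg ((p + q * u) / I u)]

lemma gg_mono (hI : Continuous I) (p q : ℝ) {a b c d : ℝ} (h1 : a ≤ c) (h2 : c ≤ d) (h3 : d ≤ b) :
    ∫ u in c..d, gg I p q u ≤ ∫ u in a..b, gg I p q u :=
  intervalIntegral.integral_mono_interval h1 h2 h3 (ae_of_all _ fun u => gg_nonneg p q u)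
    (gg_int hI p q a b)

lemma gg_pos (p q : ℝ) {a b : ℝ} (h : a ≤ b) : 0 ≤ ∫ u in a..b, gg I p q u :=
  intervalIntegral.integral_nonneg h fun u _ => gg_nonneg p q u

lemma Good.conc (G : Good I s) {x y v : ℝ} (h1 : x ≤ v) (h2 : v ≤ y) :
    (y - v) * I x + (v - x) * I y ≤ (y - x) * I v := by
  have a1 := mul_le_mul_of_nonneg_left (G.up v x) (sub_nonneg.2 h2)
  have a2 := mul_le_mul_of_nonneg_left (G.up v y) (sub_nonneg.2 h1)
  nlinarith

lemma Good.z1 (G : Good I s) : I 1 = 0 := by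
  have := G.sym 0; rw [sub_zero] at this; rw [this, G.z0]

lemma Good.low (G : Good I s) {v : ℝ} (h0 : 0 ≤ v) (h1 : v ≤ 1 / 10) : 19 / 4 * v ≤ I v := by
  have := G.conc h0 h1
  have := mul_le_mul_of_nonneg_left G.ten h0
  rw [G.z0] at *
  nlinarith

lemma Good.mid (G : Good I s) {v : ℝ} (h0 : 1 / 10 ≤ v) (h1 : v ≤ 1 - 1 / 10) : 19 / 40 ≤ I v := by
  have a := G.conc h0 h1
  rw [G.sym] at a
  have := G.ten
  nlinarith

lemma Good.pos (G : Good I s) {v : ℝ} (h0 : 0 < v) (h1 : v < 1) : 0 < I v := by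
  rcases le_total v (1 / 10) with h | h
  · linarith [G.low h0.le h]
  rcases le_total v (1 - 1 / 10) with k | k
  · linarith [G.mid h k]
  · have := G.low (v := 1 - v) (by linarith) (by linarith)
    rw [G.sym] at this; linarith

lemma Good.nonneg (G : Good I s) {v : ℝ} (h0 : 0 ≤ v) (h1 : v ≤ 1) : 0 ≤ I v := by
  rcases h0.eq_or_lt with rfl | h
  · exact G.z0.ge
  rcases h1.eq_or_lt with rfl | k
  · exact G.z1.ge
  exact (G.pos h k).le

lemma Good.aff (G : Good I s) {p q x y v : ℝ} (h1 : x ≤ v) (h2 : v ≤ y)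
    (a0 : 0 ≤ p + q * x) (a1 : p + q * x ≤ I x) (b0 : 0 ≤ p + q * y) (b1 : p + q * y ≤ I y) :
    0 ≤ p + q * v ∧ p + q * v ≤ I v := by
  rcases h1.eq_or_lt with rfl | h
  · exact ⟨a0, a1⟩
  have hp : 0 < y - x := by linarith
  have c := G.conc h1 h2
  have e : (y - x) * (p + q * v) = (y - v) * (p + q * x) + (v - x) * (p + q * y) := by ring
  have d1 := sub_nonneg.2 h1
  have d2 := sub_nonneg.2 h2
  constructor
  · refine le_of_mul_le_mul_left ?_ hp
    rw [e, mul_zero]; positivity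
  · refine le_of_mul_le_mul_left ?_ hp
    rw [e]
    nlinarith [mul_le_mul_of_nonneg_left a1 d2, mul_le_mul_of_nonneg_left b1 d1]

theorem Good.flip (G : Good I s) {a b : ℝ} (h : CalAt I (1 - b) (1 - a)) : CalAt I a b := by
  obtain ⟨p, q, h⟩ := h
  refine ⟨p + q, -q, fun v hv => ?_⟩
  have k := h (1 - v) ⟨by linarith [hv.2], by linarith [hv.1]⟩
  have e : ∀ u, p + q + -q * u = p + q * (1 - u) := fun u => by ring
  rw [G.sym, ← intervalIntegral.integral_comp_sub_left (fun u => gg I p q u) 1] at k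
  simp only [gg, e, G.sym] at k ⊢
  exact k

lemma semi (m : ℝ) {r : ℝ} (hr : 0 < r) :
    ∫ v in (m - r)..(m + r), √(1 - (v / r - m / r) ^ 2) = r * (π / 2) := by
  rw [intervalIntegral.integral_comp_div_sub (fun t => √(1 - t ^ 2)) hr.ne']
  have e1 : (m - r) / r - m / r = -1 := by field_simp; ring
  have e2 : (m + r) / r - m / r = 1 := by field_simp; ring
  rw [e1, e2, integral_sqrt_one_sub_sq, smul_eq_mul]

theorem Good.loc (G : Good I s) {a b κ J w : ℝ} (ha : 0 < a) (hab : a < b) (hb : b < 1)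
    (hJ : ∀ v ∈ Icc a b, I v ≤ J)
    (hL : ∀ x ∈ Icc a b, ∀ v ∈ Icc a b, I x + s x * (v - x) - κ * (v - x) ^ 2 ≤ I v)
    (hw : b - a ≤ w) (h : κ * (160000 * J ^ 2 + 98695 * w ^ 2) ≤ 8 * 98695 * J) : CalAt I a b := by
  obtain ⟨q, hq⟩ : ∃ q, q * (b - a) = I b - I a :=
    ⟨(I b - I a) / (b - a), div_mul_cancel₀ _ (sub_pos.2 hab).ne'⟩
  obtain ⟨p, hp⟩ : ∃ p, p + q * a = I a := ⟨I a - q * a, by ring⟩
  have hp' : p + q * b = I b := by linarith
  have ia := G.pos ha (hab.trans hb)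
  have ib := G.pos (ha.trans hab) hb
  have hl : ∀ v ∈ Icc a b, 0 ≤ p + q * v ∧ p + q * v ≤ I v := fun v hv =>
    G.aff hv.1 hv.2 (by linarith) hp.le (by linarith) hp'.le
  obtain ⟨m, hm, sm⟩ : q ∈ s '' Icc a b := by
    refine intermediate_value_Icc' hab.le G.conts.continuousOn ⟨?_, ?_⟩
    · refine le_of_mul_le_mul_right ?_ (sub_pos.2 hab); nlinarith [G.up b a]
    · refine le_of_mul_le_mul_right ?_ (sub_pos.2 hab); nlinarith [G.up a b]
  obtain ⟨M, hM⟩ : ∃ M, M = I m - (p + q * m) := ⟨_, rfl⟩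
  refine ⟨p, q, fun v hv => ⟨by rw [abs_of_nonneg (hl v hv).1]; exact (hl v hv).2, ?_⟩⟩
  have u1 : I v - (p + q * v) ≤ M := by have := G.up m v; rw [sm] at this; linarith
  refine u1.trans ?_
  rcases le_or_gt M 0 with h0 | h0
  · exact h0.trans (gg_pos p q hab.le)
  have lo : ∀ u ∈ Icc a b, M - κ * (u - m) ^ 2 ≤ I u - (p + q * u) := fun u hu => by
    have := hL m hm u hu; rw [sm] at this; linarith
  have la := lo a ⟨le_rfl, hab.le⟩
  have lb := lo b ⟨hab.le, le_rfl⟩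
  have hκ : 0 < κ := by
    by_contra k
    nlinarith [mul_nonneg (neg_nonneg.2 (not_lt.1 k)) (sq_nonneg (a - m))]
  have hJ0 : 0 < J := ia.trans_le (hJ a ⟨le_rfl, hab.le⟩)
  obtain ⟨r, r0, hr⟩ : ∃ r, 0 < r ∧ κ * r ^ 2 = M :=
    ⟨√(M / κ), sqrt_pos.2 (by positivity), by rw [sq_sqrt (by positivity)]; field_simp⟩
  have ra : r ≤ m - a := by
    refine (pow_le_pow_iff_left₀ r0.le (sub_nonneg.2 hm.1) two_ne_zero).1 ?_
    refine le_of_mul_le_mul_left ?_ hκ; nlinarith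
  have rb : r ≤ b - m := by
    refine (pow_le_pow_iff_left₀ r0.le (sub_nonneg.2 hm.2) two_ne_zero).1 ?_
    refine le_of_mul_le_mul_left ?_ hκ; nlinarith
  have MJ : M ≤ J := by linarith [(hl m hm).1, hJ m hm]
  obtain ⟨y, hy⟩ : ∃ y, y = M / J := ⟨_, rfl⟩
  have y0 : 0 < y := by rw [hy]; positivity
  have y1 : y ≤ 1 := by rw [hy, div_le_one hJ0]; exact MJ
  have yJ : y * J = M := by rw [hy]; field_simp
  obtain ⟨c, c0, hc⟩ : ∃ c, 0 ≤ c ∧ c ^ 2 = y * (2 - y) :=
    ⟨√(y * (2 - y)), sqrt_nonneg _, sq_sqrt (by nlinarith)⟩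
  refine le_trans ?_ (gg_mono G.cont p q (c := m - r) (d := m + r) (by linarith) (by linarith)
    (by linarith))
  have k1 : ∫ u in (m - r)..(m + r), c * √(1 - (u / r - m / r) ^ 2) ≤
      ∫ u in (m - r)..(m + r), gg I p q u := by
    refine intervalIntegral.integral_mono_on (by linarith)
      (Continuous.intervalIntegrable (by fun_prop) _ _) (gg_int G.cont _ _ _ _) fun u hu => ?_
    have hu' : u ∈ Icc a b := ⟨by linarith [hu.1], by linarith [hu.2]⟩
    obtain ⟨t, ht⟩ : ∃ t, t = u / r - m / r := ⟨_, rfl⟩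
    have tr : u - m = r * t := by rw [ht]; field_simp
    rw [← ht]
    have t1 : t ^ 2 ≤ 1 := by
      have e1 : t ≤ 1 := le_of_mul_le_mul_left (by linarith [hu.2]) r0
      have e2 : -1 ≤ t := le_of_mul_le_mul_left (by linarith [hu.1]) r0
      nlinarith
    have iu := G.pos (ha.trans_le hu'.1) (hu'.2.trans_lt hb)
    have l1 := lo u hu'
    rw [tr, mul_pow, ← mul_assoc, hr] at l1
    have l2 := hl u hu'
    have l3 := hJ u hu'
    have d0 := sub_nonneg.2 t1
    have z1 : (p + q * u) / I u ≤ 1 - y * (1 - t ^ 2) := by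
      rw [div_le_iff₀ iu]
      have := mul_le_mul_of_nonneg_left l3 (mul_nonneg y0.le d0)
      nlinarith
    have z0 : 0 ≤ (p + q * u) / I u := div_nonneg l2.1 iu.le
    refine Real.le_sqrt_of_sq_le ?_
    rw [mul_pow, sq_sqrt d0, hc]
    generalize (p + q * u) / I u = z at z0 z1
    have d1 : 1 - t ^ 2 ≤ 1 := by nlinarith [sq_nonneg t]
    generalize 1 - t ^ 2 = d at d0 z1 d1
    have e1 : z ^ 2 ≤ (1 - y * d) ^ 2 := pow_le_pow_left₀ z0 z1 2
    nlinarith [mul_nonneg (mul_nonneg (mul_nonneg y0.le y0.le) d0) (sub_nonneg.2 d1)]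
  rw [intervalIntegral.integral_const_mul, semi m r0] at k1
  refine le_trans ?_ k1
  have pi2 : 98695 / 10000 ≤ π ^ 2 := by nlinarith [Real.pi_gt_d6]
  have rw' : 4 * r ^ 2 ≤ w ^ 2 := by nlinarith
  have s1 : 4 * M ≤ κ * w ^ 2 := by nlinarith
  have s2 : 4 * κ * J ^ 2 ≤ 98695 / 10000 * (2 * J - M) := by nlinarith
  have s3 : 4 * κ * J ^ 2 ≤ π ^ 2 * (2 * J - M) :=
    s2.trans (mul_le_mul_of_nonneg_right pi2 (by linarith))
  refine (pow_le_pow_iff_left₀ h0.le (by positivity) two_ne_zero).1 ?_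
  refine le_of_mul_le_mul_left ?_ (by positivity : 0 < 4 * κ * J ^ 2)
  have e : 4 * κ * J ^ 2 * (c * (r * (π / 2))) ^ 2 = π ^ 2 * (2 * J - M) * M ^ 2 := by
    calc _ = J ^ 2 * c ^ 2 * (κ * r ^ 2) * π ^ 2 := by ring
      _ = (y * J) * (2 * J - y * J) * M * π ^ 2 := by rw [hc, hr]; ring
      _ = _ := by rw [yJ]; ring
  rw [e]
  exact mul_le_mul_of_nonneg_right s3 (sq_nonneg _)

lemma int_lin (α β x y : ℝ) : ∫ v in x..y, (α + β * v) = (y - x) * (α + β * (x + y) / 2) := by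
  rw [intervalIntegral.integral_add (by simp) (Continuous.intervalIntegrable (by fun_prop) _ _),
    intervalIntegral.integral_const_mul, integral_id]
  simp; ring

theorem Good.trap (G : Good I s) {p q x y g0 g1 μ e0 e1 : ℝ} (hx : 0 < x) (hxy : x ≤ y) (hy : y < 1)
    (l0 : 0 ≤ p + q * x) (l1 : 0 ≤ p + q * y)
    (h0 : (g0 * I x) ^ 2 + (p + q * x) ^ 2 ≤ I x ^ 2)
    (h1 : (g1 * I y) ^ 2 + (p + q * y) ^ 2 ≤ I y ^ 2)
    (a0 : e0 * I x ≤ (g0 - μ) * I x) (a1 : e0 * I y ≤ (g0 - μ) * I x)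
    (b0 : e1 * I x ≤ (g1 - μ) * I y) (b1 : e1 * I y ≤ (g1 - μ) * I y) :
    (y - x) * (2 * μ + e0 + e1) / 2 ≤ ∫ u in x..y, gg I p q u := by
  rcases hxy.eq_or_lt with rfl | h
  · simp
  have hh := sub_pos.2 h
  have i0 := G.pos hx (h.trans hy)
  have i1 := G.pos (hx.trans h) hy
  have e : (y - x) * (2 * μ + e0 + e1) / 2 =
      ∫ v in x..y, (μ + (y * e0 - x * e1) / (y - x) + (e1 - e0) / (y - x) * v) := by
    rw [int_lin]; field_simp; ring
  rw [e]
  refine intervalIntegral.integral_mono_on h.le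
    (Continuous.intervalIntegrable (by fun_prop) _ _) (gg_int G.cont _ _ _ _) fun v hv => ?_
  have c := G.conc hv.1 hv.2
  have e2 : μ + (y * e0 - x * e1) / (y - x) + (e1 - e0) / (y - x) * v =
      μ + ((y - v) * e0 + (v - x) * e1) / (y - x) := by field_simp; ring
  have e3 : (p + q * v) / I v =
      ((y - v) * (p + q * x) + (v - x) * (p + q * y)) / ((y - x) * I v) := by
    have := (G.pos (hx.trans_le hv.1) (hv.2.trans_lt hy)).ne'
    field_simp; ring
  rw [e2, gg, e3]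
  have e4 : y - x = (y - v) + (v - x) := by ring
  have A0 := sub_nonneg.2 hv.2
  have B0 := sub_nonneg.2 hv.1
  generalize (y - x) * I v = W at c
  rw [e4] at hh ⊢
  generalize y - v = A at *
  generalize v - x = B at *
  generalize p + q * x = L0 at *
  generalize p + q * y = L1 at *
  generalize I x = J0 at *
  generalize I y = J1 at *
  have T0 : 0 < A * J0 + B * J1 := by
    rcases A0.eq_or_lt with rfl | k
    · rw [zero_add] at hh; nlinarith [mul_pos hh i1]
    · nlinarith [mul_pos k i0, mul_nonneg B0 i1.le]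
  have cs : g0 * J0 * (g1 * J1) + L0 * L1 ≤ J0 * J1 := by
    refine (abs_le_of_sq_le_sq' ?_ (by positivity)).2
    have := mul_le_mul h0 h1 (by positivity) (by positivity)
    nlinarith [sq_nonneg (g0 * J0 * L1 - g1 * J1 * L0)]
  have n1 : (A * (g0 * J0) + B * (g1 * J1)) ^ 2 + (A * L0 + B * L1) ^ 2 ≤ (A * J0 + B * J1) ^ 2 := by
    nlinarith [mul_le_mul_of_nonneg_left h0 (sq_nonneg A),
      mul_le_mul_of_nonneg_left h1 (sq_nonneg B),
      mul_le_mul_of_nonneg_left cs (mul_nonneg A0 B0)]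
  have n2 : μ + (A * e0 + B * e1) / (A + B) ≤ (A * (g0 * J0) + B * (g1 * J1)) / (A * J0 + B * J1) := by
    rw [le_div_iff₀ T0, add_mul, div_mul_eq_mul_div, ← le_sub_iff_add_le', div_le_iff₀ hh]
    nlinarith [mul_le_mul_of_nonneg_left a0 (mul_nonneg A0 A0),
      mul_le_mul_of_nonneg_left a1 (mul_nonneg A0 B0),
      mul_le_mul_of_nonneg_left b0 (mul_nonneg A0 B0),
      mul_le_mul_of_nonneg_left b1 (mul_nonneg B0 B0)]
  have n3 : (A * L0 + B * L1) / W ≤ (A * L0 + B * L1) / (A * J0 + B * J1) :=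
    div_le_div_of_nonneg_left (by positivity) T0 c
  have n4 := pow_le_pow_left₀ (div_nonneg (by positivity) (T0.le.trans c)) n3 2
  refine n2.trans (Real.le_sqrt_of_sq_le ?_)
  refine le_trans ?_ (sub_le_sub_left n4 1)
  rw [le_sub_iff_add_le, div_pow, div_pow, ← add_div, div_le_one (by positivity)]
  exact n1

theorem Good.corner (G : Good I s) (h1 : ∀ v, I v ≤ 1)
    (hT : ∀ v, v ≤ 21 / 50 → I v ≤ 1 - 4 * (21 / 50 - v) ^ 2) {a b : ℝ} (ha : 0 < a) (hab : a < b)
    (hb : b < 1) (hs : a ≤ 1 - b) (hσ : a + (1 - b) ≤ 1 / 300) : CalAt I a b := by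
  obtain ⟨c, hc⟩ : ∃ c, c = 1 - b := ⟨_, rfl⟩
  obtain ⟨σ, hσ'⟩ : ∃ σ, σ = a + c := ⟨_, rfl⟩
  have c0 : 0 < c := by linarith
  have ac : a ≤ c := by linarith
  have σ1 : σ ≤ 1 / 300 := by linarith
  have key : ∀ v ∈ Icc a b, 0 < I v ∧ 0 ≤ (4 * a + 4 * (c - a) * v) / I v ∧
      ((4 * a + 4 * (c - a) * v) / I v) ^ 2 ≤ 3 / 4 ∧
      ((4 * a + 4 * (c - a) * v) / I v) ^ 2 ≤
        3 / 4 * ((a / v) ^ 2 + (c / (1 - v)) ^ 2) + 72 * σ ^ 2 := fun v hv => by
    have v0 := ha.trans_le hv.1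
    have v1 := hv.2.trans_lt hb
    have iv := G.pos v0 v1
    have w0 := sub_pos.2 v1
    have l0 : 0 ≤ 4 * a + 4 * (c - a) * v := by nlinarith [mul_nonneg (sub_nonneg.2 ac) v0.le]
    have r0 := div_nonneg l0 iv.le
    have x0 : 0 ≤ a / v := by positivity
    have y0 : 0 ≤ c / (1 - v) := by positivity
    have x1 : a / v ≤ 1 := (div_le_one v0).2 hv.1
    have y1 : c / (1 - v) ≤ 1 := (div_le_one w0).2 (by linarith [hv.2])
    have xv : a / v * v = a := div_mul_cancel₀ _ v0.ne'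
    have yv : c / (1 - v) * (1 - v) = c := div_mul_cancel₀ _ w0.ne'
    have side : ∀ r x : ℝ, 0 ≤ r → 0 ≤ x → x ≤ 1 → r ≤ 16 / 19 * (x + σ) →
        r ^ 2 ≤ 3 / 4 ∧ r ^ 2 ≤ 3 / 4 * x ^ 2 + 72 * σ ^ 2 := fun r x r0 x0 x1 h => by
      have := pow_le_pow_left₀ r0 h 2
      have σ0 : 0 ≤ σ := by linarith
      constructor
      · have : r ≤ 17 / 20 := by linarith
        nlinarith
      · nlinarith [sq_nonneg (x - 20 * σ)]
    refine ⟨iv, r0, ?_⟩
    generalize a / v = x at *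
    generalize c / (1 - v) = y at *
    rcases le_total v (1 / 10) with h | h
    · have := side _ x r0 x0 x1 (by
        rw [div_le_iff₀ iv]
        have := mul_le_mul_of_nonneg_left (G.low v0.le h) (by linarith : 0 ≤ 16 / 19 * (x + σ))
        nlinarith)
      exact ⟨this.1, by nlinarith [this.2, sq_nonneg y]⟩
    rcases le_total v (1 - 1 / 10) with k | k
    · have : (4 * a + 4 * (c - a) * v) / I v ≤ 160 / 19 * σ := by
        rw [div_le_iff₀ iv]
        have := mul_le_mul_of_nonneg_left (G.mid h k) (by linarith : 0 ≤ 160 / 19 * σ)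
        nlinarith [mul_nonneg (sub_nonneg.2 ac) w0.le]
      have := pow_le_pow_left₀ r0 this 2
      have σ0 : 0 ≤ σ := by linarith
      exact ⟨by nlinarith, by nlinarith [sq_nonneg x, sq_nonneg y]⟩
    · have := side _ y r0 y0 y1 (by
        rw [div_le_iff₀ iv]
        have lo := G.low w0.le (by linarith)
        rw [G.sym] at lo
        have := mul_le_mul_of_nonneg_left lo (by linarith : 0 ≤ 16 / 19 * (y + σ))
        nlinarith)
      exact ⟨this.1, by nlinarith [this.2, sq_nonneg x]⟩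
  refine ⟨4 * a, 4 * (c - a), fun v hv => ⟨?_, ?_⟩⟩
  · obtain ⟨iv, r0, r1, -⟩ := key v hv
    have := abs_le_one_iff_mul_self_le_one.2 (by nlinarith :
      (4 * a + 4 * (c - a) * v) / I v * ((4 * a + 4 * (c - a) * v) / I v) ≤ 1)
    rwa [abs_div, abs_of_pos iv, div_le_one iv] at this
  have hM : I v - (4 * a + 4 * (c - a) * v) ≤ 1 - 42 / 25 * σ + σ ^ 2 := by
    have d0 := sub_nonneg.2 ac
    have d1 : (c - a) ^ 2 ≤ σ ^ 2 := pow_le_pow_left₀ d0 (by linarith) 2
    rcases le_total v (21 / 50) with h | h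
    · nlinarith [hT v h, sq_nonneg (2 * (21 / 50 - v) - (c - a))]
    · nlinarith [h1 v, mul_nonneg d0 (sub_nonneg.2 h), sq_nonneg σ]
  have ne : ∀ u ∈ uIcc a b, u ≠ 0 ∧ 1 - u ≠ 0 := fun u hu => by
    rw [uIcc_of_le hab.le] at hu
    exact ⟨(ha.trans_le hu.1).ne', (sub_pos.2 (hu.2.trans_lt hb)).ne'⟩
  have ci : IntervalIntegrable
      (fun u => 1 - 48 * σ ^ 2 - ((a / u) ^ 2 + (c / (1 - u)) ^ 2) / 2) volume a b := by
    refine ContinuousOn.intervalIntegrable fun u hu => ContinuousAt.continuousWithinAt ?_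
    obtain ⟨n1, n2⟩ := ne u hu
    fun_prop (disch := assumption)
  have ftc := intervalIntegral.integral_eq_sub_of_hasDerivAt
    (f := fun u => (1 - 48 * σ ^ 2) * u + (a ^ 2 * u⁻¹ - c ^ 2 * (1 - u)⁻¹) / 2) (fun u hu => by
      obtain ⟨n1, n2⟩ := ne u hu
      have d1 := (hasDerivAt_inv n1).const_mul (a ^ 2)
      have d2 := (((hasDerivAt_id' u).const_sub 1).inv n2).const_mul (c ^ 2)
      have d3 := ((hasDerivAt_id' u).const_mul (1 - 48 * σ ^ 2)).add ((d1.sub d2).div_const 2)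
      refine d3.congr_deriv ?_
      field_simp; ring) ci
  have mono := intervalIntegral.integral_mono_on hab.le ci
    (gg_int G.cont (4 * a) (4 * (c - a)) a b) fun u hu => by
      obtain ⟨-, -, r1, r2⟩ := key u hu
      rw [gg]
      have z0 := sq_nonneg ((4 * a + 4 * (c - a) * u) / I u)
      generalize ((4 * a + 4 * (c - a) * u) / I u) ^ 2 = z at r1 r2 z0
      refine le_trans (b := 1 - 2 / 3 * z) (by linarith) (Real.le_sqrt_of_sq_le ?_)
      linarith [mul_le_mul_of_nonneg_left r1 z0]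
  refine hM.trans (le_trans ?_ mono)
  rw [ftc, ← hc]
  have e1 : a ^ 2 * a⁻¹ = a := by field_simp
  have e2 : c ^ 2 * c⁻¹ = c := by field_simp
  have e3 : 0 ≤ a ^ 2 * b⁻¹ := by have := ha.trans hab; positivity
  have e4 : 0 ≤ c ^ 2 * (1 - a)⁻¹ := by have := sub_pos.2 (hab.trans hb); positivity
  have e5 : b = 1 - c := by linarith
  have σ0 : 0 < σ := by linarith
  rw [e1, e2]
  nlinarith [mul_nonneg σ0.le (sq_nonneg σ), mul_le_mul_of_nonneg_left σ1 σ0.le]

end Pool.Agent.P.MP_b7645d_gt.X
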