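import Mathlib

/-! An integer checker: a quadtree over pairs of end points, with trapezoid sums. -/

set_option autoImplicit false

namespace Pool.Agent.P.MP_b7645d_gt.X

/-- evaluate first -/
def frc {α : Type} (x : ℕ) (f : ℕ → α) : α := Nat.rec (f 0) (fun n _ => f (Nat.succ n)) x

/-- grid size -/
def NN : ℕ := 209715200
/-- half of the grid size -/
def HH : ℕ := 104857600
/-- normalising constant -/
def ZZ : ℕ := 4282325111303831552
/-- weights and break points -/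
def LL : List (ℕ × ℕ) := [(474, 88080384), (21, 55574528), (44, 50331648), (71, 39845888),
  (97, 31457280), (195, 22020096), (346, 14680064), (722, 8388608)]
/-- guesses for the tangent point -/
def BG : List (ℕ × ℕ) := [(41750102016, 474), (42917167104, 495), (45131759616, 539),
  (47960817664, 610), (51012173824, 707), (55306092544, 902), (60385394688, 1248),
  (66441969664, 1970)]
/-- relative step sizes -/
def TT : List ℕ := [10346, 40081, 76123, 110350, 136610, 150778, 150777, 136610, 110350, 76123,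
  40081, 10347]

/-- sum of the weighted squares -/
def Sz (L : List (ℕ × ℕ)) (y : ℕ) : ℕ :=
  List.rec 0 (fun t _ r => cond (Nat.ble t.2 y) 0
    (Nat.add (Nat.mul t.1 (Nat.pow (Nat.sub t.2 y) 2)) r)) L
/-- half of the slope -/
def Pz (L : List (ℕ × ℕ)) (y : ℕ) : ℕ :=
  List.rec 0 (fun t _ r => Nat.add (Nat.mul t.1 (Nat.sub t.2 y)) r) L
/-- curvature bound -/
def Kz (L : List (ℕ × ℕ)) (y : ℕ) : ℕ :=
  List.rec 0 (fun t _ r => Nat.add (cond (Nat.ble t.2 y) 0 t.1) r) L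
/-- minimum -/
def mn (x y : ℕ) : ℕ := cond (Nat.ble x y) x y
/-- scaled profile -/
def Iz (x : ℕ) : ℕ := frc (cond (Nat.ble x HH) x (Nat.sub NN x)) fun y => Nat.sub ZZ (Sz LL y)
/-- Newton step -/
def nw (Y u : ℕ) : ℕ := Nat.succ (Nat.shiftRight (Nat.add u (Nat.div Y u)) 1)
/-- lower bound for the square root -/
def rt (Y u : ℕ) : ℕ := frc (nw Y u) fun u => frc (nw Y u) fun u => frc (Nat.div Y u) fun v => mn u v
/-- square of the integrand -/
def yy (w c0 c1 x i : ℕ) : ℕ := frc (Nat.pow (Nat.mul w i) 2) fun D =>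
  Nat.div (Nat.shiftLeft (Nat.sub D (Nat.pow (Nat.add c0 (Nat.mul c1 x)) 2)) 40) D
/-- one trapezoid -/
def sgm (g0 i0 g1 i1 : ℕ) : ℕ :=
  cond (Nat.ble g0 g1)
    (cond (Nat.ble i0 i1) (Nat.add g0 g1)
      (Nat.add (Nat.mul 2 g0) (Nat.div (Nat.mul (Nat.sub g1 g0) i1) i0)))
    (cond (Nat.ble i1 i0) (Nat.add g0 g1)
      (Nat.add (Nat.mul 2 g1) (Nat.div (Nat.mul (Nat.sub g0 g1) i0) i1)))
/-- trapezoid sum -/
def go (w c0 c1 ln : ℕ) (T : List ℕ) : ℕ → ℕ → ℕ → ℕ :=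
  List.rec (fun _ _ _ => 0) (fun n _ ih xp g0 i0 =>
    frc (Nat.shiftRight (Nat.mul ln n) 20) fun dl => frc (Nat.add xp dl) fun x =>
    frc (Iz x) fun i1 => frc (yy w c0 c1 x i1) fun Y => frc (rt Y (Nat.succ g0)) fun g1 =>
    Nat.add (Nat.mul dl (sgm g0 i0 g1 i1)) (ih x g1 i1)) T
/-- starting value for Newton -/
def st (Y : ℕ) : ℕ := Nat.rec 1048576 (fun _ r => frc r fun u => nw Y u) 6
/-- tangent point -/
def tp (τ : ℕ) : ℕ :=
  List.rec 0 (fun t _ r => frc r fun r => frc (Nat.div (Nat.sub t.1 τ) t.2) fun x =>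
    cond (Nat.ble x r) r x) BG
/-- the trapezoid test on a box -/
def test (P Q h : ℕ) : Bool :=
  and (Nat.ble 1 h) (and (Nat.ble h 13107200) (and (Nat.ble (Nat.add (Nat.add P h) h) Q)
  (frc (Iz P) fun ip => frc (Iz Q) fun iq => frc (Nat.sub Q P) fun w =>
    frc (Nat.sub iq ip) fun c1 => frc (Nat.sub (Nat.mul ip Q) (Nat.mul iq P)) fun c0 =>
    frc (tp (Nat.div c1 (Nat.mul 2 w))) fun x => frc (Nat.mul (Nat.mul 2 (Pz LL x)) w) fun u =>
    frc (Nat.add P h) fun x0 => frc (Iz x0) fun i0 => frc (yy w c0 c1 x0 i0) fun Y =>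
    frc (rt Y (st Y)) fun g0 => frc (Nat.sub (Nat.sub w h) h) fun ln =>
    and (Nat.ble (Nat.add c0 (Nat.mul c1 P)) (Nat.mul w ip))
    (and (Nat.ble (Nat.add c0 (Nat.mul c1 Q)) (Nat.mul w iq))
    (and (Nat.ble x HH)
      (Nat.ble (Nat.mul (Nat.mul 2097152 NN) (Nat.add (Nat.mul (Iz x) w)
          (Nat.mul NN (Nat.add (Nat.sub u c1) (Nat.sub c1 u)))))
        (Nat.add (Nat.mul (Nat.mul (go w c0 c1 ln TT x0 g0 i0) ZZ) w)
          (Nat.mul (Nat.mul 2097152 NN) (Nat.add c0 (Nat.mul c1 x))))))))))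
/-- the local test on a box -/
def lcl (P Q : ℕ) : Bool :=
  frc (Iz (mn Q HH)) fun J => Nat.ble
    (Nat.mul (Kz LL (mn P (Nat.sub NN Q))) (Nat.add (Nat.mul 160000 (Nat.pow (Nat.mul NN J) 2))
      (Nat.mul 98695 (Nat.pow (Nat.mul (Nat.sub Q P) ZZ) 2))))
    (Nat.mul (Nat.mul 789560 J) (Nat.pow ZZ 2))
/-- a leaf of the tree -/
def leaf (P Q h : ℕ) : Bool :=
  or (Nat.ble Q P) (or (Nat.ble (Nat.add NN h) (Nat.add P Q))
    (or (Nat.ble (Nat.add (Nat.add (Nat.add P h) h) NN) (Nat.add 699050 Q))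
      (or (lcl P Q) (test P Q h))))
/-- the quadtree -/
def chk (f : ℕ) : ℕ → ℕ → ℕ → Bool :=
  Nat.rec (fun P Q h => leaf P Q h) (fun _ ih P Q h => or (leaf P Q h)
    (frc (Nat.shiftRight h 1) fun k => frc (Nat.add P k) fun P' => frc (Nat.sub Q k) fun Q' =>
      and (Nat.beq (Nat.add k k) h) (and (ih P Q k) (and (ih P' Q k) (and (ih P Q' k)
        (ih P' Q' k)))))) f

end Pool.Agent.P.MP_b7645d_gt.X
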