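import Pool.Agent.P.MP_b7645d_gt.X.Tens

/-! The one dimensional inequality from a two parameter calculus fact. -/

set_option autoImplicit false

open MeasureTheory ProbabilityTheory Set Real Filter Topology

namespace Pool.Agent.P.MP_b7645d_gt.X

/-- the calculus fact: on each interval some affine function below `I` has small defect -/
def Cal (I : ℝ → ℝ) : Prop :=
  ∀ a b : ℝ, 0 < a → a < b → b < 1 → ∃ p q : ℝ, ∀ v ∈ Icc a b, |p + q * v| ≤ I v ∧
    I v - (p + q * v) ≤ ∫ u in a..b, √(1 - ((p + q * u) / I u) ^ 2)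

lemma pt_cs {l i c : ℝ} (hi : 0 < i) (h : |l| ≤ i) :
    l + |√(1 - (l / i) ^ 2) * c| ≤ √(i ^ 2 + c ^ 2) := by
  have h1 : (l / i) ^ 2 ≤ 1 := by
    rw [div_pow, div_le_one (by positivity), ← sq_abs l]
    exact pow_le_pow_left₀ (abs_nonneg _) h 2
  have h2 := Real.sq_sqrt (sub_nonneg.2 h1)
  have h3 : l = l / i * i := by field_simp
  rw [abs_mul, abs_of_nonneg (Real.sqrt_nonneg _)]
  generalize √(1 - (l / i) ^ 2) = g at h2
  refine Real.le_sqrt_of_sq_le ?_
  rw [h3, ← sq_abs c]
  generalize l / i = k at h2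
  have h4 : i ^ 2 + |c| ^ 2 = (k ^ 2 + g ^ 2) * (i ^ 2 + |c| ^ 2) := by rw [h2]; ring
  nlinarith [sq_nonneg (k * |c| - g * i)]

theorem oneD {I : ℝ → ℝ} (hI : Continuous I) (h0 : ∀ u ∈ Ioo (0 : ℝ) 1, 0 < I u) (h1 : Cal I) :
    OneD I := by
  rintro f hf ⟨κ, hκ, hr⟩ ⟨C, hC⟩
  have hfc := hf.continuous
  have ho : ∀ s, f s ∈ Ioo (0 : ℝ) 1 := fun s => ⟨by linarith [(hr s).1], by linarith [(hr s).2]⟩
  obtain ⟨s0, hs0, m0⟩ := isCompact_Icc.exists_isMinOn (nonempty_Icc.2 zero_le_one)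
    hfc.continuousOn
  obtain ⟨s1, hs1, m1⟩ := isCompact_Icc.exists_isMaxOn (nonempty_Icc.2 zero_le_one)
    hfc.continuousOn
  have hin : ∀ s ∈ Ioo (0 : ℝ) 1, f s ∈ Icc (f s0) (f s1) := fun s hs =>
    ⟨m0 (Ioo_subset_Icc_self hs), m1 (Ioo_subset_Icc_self hs)⟩
  have ae : ∀ {P : ℝ → Prop}, (∀ s ∈ Ioo (0 : ℝ) 1, P s) →
      ∀ᵐ s ∂(volume.restrict (Ioo (0 : ℝ) 1)), P s := fun h =>
    (ae_restrict_iff' measurableSet_Ioo).2 (Eventually.of_forall h)
  have i1 : IntegrableOn f (Ioo 0 1) := hfc.integrableOn_Icc.mono_set Ioo_subset_Icc_self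
  have i2 : IntegrableOn (fun s => √(I (f s) ^ 2 + deriv f s ^ 2)) (Ioo 0 1) := by
    refine Integrable.mono' (g := fun s => |I (f s)| + C)
      (((hI.comp hfc).abs.add continuous_const).integrableOn_Icc.mono_set Ioo_subset_Icc_self)
      (((hI.comp hfc).measurable.pow_const 2).add
        ((measurable_deriv f).pow_const 2)).sqrt.aestronglyMeasurable (ae fun s _ => ?_)
    have a1 := hC s
    have a2 := abs_nonneg (deriv f s)
    have a3 := abs_nonneg (I (f s))
    rw [Real.norm_eq_abs, abs_of_nonneg (Real.sqrt_nonneg _), Real.sqrt_le_left (by linarith),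
      ← sq_abs (I _), ← sq_abs (deriv f s)]
    nlinarith
  have hm : ∫ s in Ioo (0 : ℝ) 1, f s ∈ Icc (f s0) (f s1) :=
    ⟨by simpa using integral_mono_ae (integrable_const (f s0)) i1 (ae fun s hs => (hin s hs).1),
      by simpa using integral_mono_ae i1 (integrable_const (f s1)) (ae fun s hs => (hin s hs).2)⟩
  rcases (hm.1.trans hm.2).eq_or_lt with h | h
  · rw [le_antisymm hm.2 (h ▸ hm.1)]
    have := integral_mono_ae (integrable_const (I (f s1))) i2 (ae fun s hs => by
      beta_reduce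
      rw [le_antisymm (hin s hs).2 (h ▸ (hin s hs).1)]
      exact Real.le_sqrt_of_sq_le (le_add_of_nonneg_right (sq_nonneg _)))
    simpa using this
  obtain ⟨p, q, hpq⟩ := h1 _ _ (ho s0).1 h (ho s1).2
  set g : ℝ → ℝ := fun u => √(1 - ((p + q * u) / I u) ^ 2) with hg
  have gm : Measurable g :=
    (measurable_const.sub (((by fun_prop : Measurable fun u : ℝ => p + q * u).div
      hI.measurable).pow_const 2)).sqrt
  have gb : ∀ u, |g u| ≤ 1 := fun u => by
    rw [abs_of_nonneg (Real.sqrt_nonneg _)]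
    exact Real.sqrt_le_one.2 (sub_le_self _ (sq_nonneg _))
  have gi : ∀ x y, IntervalIntegrable g volume x y := fun x y =>
    (intervalIntegrable_const (c := (1 : ℝ))).mono_fun' gm.aestronglyMeasurable
      (Eventually.of_forall gb)
  have hG : ∀ s, HasDerivAt (fun s => ∫ u in (f s0)..(f s), g u) (g (f s) * deriv f s) s :=
    fun s => (intervalIntegral.integral_hasDerivAt_right (gi _ _)
      gm.stronglyMeasurable.stronglyMeasurableAtFilter
      ((continuousAt_const.sub ((ContinuousAt.div (by fun_prop) hI.continuousAt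
        (h0 _ (ho s)).ne').pow 2)).sqrt)).comp s (hf s).hasDerivAt
  have hb : ∀ s, |g (f s) * deriv f s| ≤ C := fun s => by
    rw [abs_mul]
    exact (mul_le_of_le_one_left (abs_nonneg _) (gb _)).trans (hC s)
  have km : Measurable fun s => g (f s) * deriv f s :=
    (gm.comp hfc.measurable).mul (measurable_deriv f)
  have i3 : IntegrableOn (fun s => |g (f s) * deriv f s|) (Ioc 0 1) :=
    Integrable.of_bound km.abs.aestronglyMeasurable C
      (Eventually.of_forall fun s => by simpa using hb s)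
  have e1 := intervalIntegral.integral_eq_sub_of_hasDerivAt (a := s0) (b := s1)
    (fun s _ => hG s) ((intervalIntegrable_const (c := C)).mono_fun' km.aestronglyMeasurable
      (Eventually.of_forall hb))
  rw [intervalIntegral.integral_same, sub_zero] at e1
  have e2 : ∫ u in (f s0)..(f s1), g u ≤ ∫ s in Ioo (0 : ℝ) 1, |g (f s) * deriv f s| := by
    rw [← e1, ← integral_Ioc_eq_integral_Ioo]
    have hs : uIoc s0 s1 ≤ Ioc 0 1 := Ioc_subset_Ioc (le_min hs0.1 hs1.1) (max_le hs0.2 hs1.2)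
    exact (le_abs_self _).trans ((intervalIntegral.norm_integral_le_integral_norm_uIoc
      (f := fun s => g (f s) * deriv f s)).trans
      (setIntegral_mono_set i3 (Eventually.of_forall fun s => abs_nonneg _) hs.eventuallyLE))
  have i4 : IntegrableOn (fun s => p + q * f s) (Ioo 0 1) :=
    (integrable_const p).add (i1.const_mul q)
  have i5 := i3.mono_set Ioo_subset_Ioc_self
  have e3 := integral_mono_ae (i4.add i5) i2 (ae fun s hs =>
    pt_cs (c := deriv f s) (h0 _ (ho s)) (hpq _ (hin s hs)).1)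
  have e4 := (hpq _ hm).2
  simp only [Pi.add_apply] at e3
  rw [integral_add i4 i5, integral_add (integrable_const p) (i1.const_mul q),
    integral_const_mul] at e3
  simp at e3
  simp only [abs_mul] at e2
  linarith

/-- the profile is one on the plateau of `I` -/
theorem prof_eq_one' {I : ℝ → ℝ} (hI : Continuous I) (h0 : ∀ u ∈ Ioo (0 : ℝ) 1, 0 < I u)
    (z0 : I 0 = 0) (z1 : I 1 = 0) (h1 : Cal I) {d : ℕ} (hd : 1 ≤ d) {t : ℝ}
    (ht : t ∈ Ioo (0 : ℝ) 1) (hp : I t = 1) : Prof d t = 1 := by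
  refine prof_eq_one hI (fun u hu => ?_) z0 z1 (oneD hI h0 h1) hd ht hp
  rcases hu.1.eq_or_lt with rfl | a
  · exact z0.ge
  rcases hu.2.eq_or_lt with rfl | b
  · exact z1.ge
  exact (h0 u ⟨a, b⟩).le

end Pool.Agent.P.MP_b7645d_gt.X
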