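import Pool.Agent.P.MP_b7645d_gt.X.Abs
import Pool.Agent.P.MP_b7645d_gt.X.Chk

/-! The piecewise quadratic comparison profile with plateau `[21/50, 29/50]`. -/

set_option autoImplicit false

open Set

namespace Pool.Agent.P.MP_b7645d_gt.X

/-- signed distance to `[A, NN - A]` -/
noncomputable def sg (A x : ℝ) : ℝ := max (A - x) 0 - max (x - (NN - A)) 0
/-- weighted sum of squared distances -/
noncomputable def FF (L : List (ℕ × ℕ)) (x : ℝ) : ℝ := (L.map fun t => (t.1 : ℝ) * sg t.2 x ^ 2).sum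
/-- weighted sum of signed distances -/
noncomputable def PP (L : List (ℕ × ℕ)) (x : ℝ) : ℝ := (L.map fun t => (t.1 : ℝ) * sg t.2 x).sum
/-- the comparison profile -/
noncomputable def II (v : ℝ) : ℝ := 1 - FF LL (NN * v) / ZZ
/-- its slope -/
noncomputable def ss (v : ℝ) : ℝ := 2 * NN * PP LL (NN * v) / ZZ

lemma NH : (NN : ℝ) = 2 * HH := by norm_num [NN, HH]
lemma NH' : NN = 2 * HH := rfl
lemma N0 : (0 : ℝ) < NN := by norm_num [NN]
lemma Z0 : (0 : ℝ) < ZZ := by norm_num [ZZ]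

lemma sg_cases {A : ℝ} (hA : A ≤ HH) (x : ℝ) : (x ≤ A ∧ sg A x = A - x) ∨
    (A ≤ x ∧ x ≤ NN - A ∧ sg A x = 0) ∨ (NN - A ≤ x ∧ sg A x = NN - A - x) := by
  have := NH
  unfold sg
  rcases le_total x A with h | h
  · left; rw [max_eq_left (by linarith), max_eq_right (by linarith)]; exact ⟨h, by ring⟩
  rcases le_total x (NN - A) with k | k
  · right; left; rw [max_eq_right (by linarith), max_eq_right (by linarith)]; exact ⟨h, k, by ring⟩
  · right; right; rw [max_eq_right (by linarith), max_eq_left (by linarith)]; exact ⟨k, by ring⟩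

lemma sgU {A : ℝ} (hA : A ≤ HH) (x y : ℝ) : sg A x ^ 2 - 2 * sg A x * (y - x) ≤ sg A y ^ 2 := by
  have := NH
  rcases sg_cases hA x with ⟨a, e⟩ | ⟨a, b, e⟩ | ⟨a, e⟩ <;>
  rcases sg_cases hA y with ⟨c, f⟩ | ⟨c, d, f⟩ | ⟨c, f⟩ <;> rw [e, f] <;>
  nlinarith [sq_nonneg (y - x), sq_nonneg (A - x), sq_nonneg (NN - A - y), sq_nonneg (A - y),
    sq_nonneg (NN - A - x)]

lemma sgL {A : ℝ} (hA : A ≤ HH) (x y : ℝ) :
    sg A y ^ 2 ≤ sg A x ^ 2 - 2 * sg A x * (y - x) + (y - x) ^ 2 := by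
  have := NH
  rcases sg_cases hA x with ⟨a, e⟩ | ⟨a, b, e⟩ | ⟨a, e⟩ <;>
  rcases sg_cases hA y with ⟨c, f⟩ | ⟨c, d, f⟩ | ⟨c, f⟩ <;> rw [e, f] <;>
  nlinarith [sq_nonneg (y - x), sq_nonneg (A - x), sq_nonneg (NN - A - y), sq_nonneg (A - y),
    sq_nonneg (NN - A - x)]

lemma sg_zero {A x : ℝ} (h1 : A ≤ x) (h2 : x ≤ NN - A) : sg A x = 0 := by
  unfold sg; rw [max_eq_right (by linarith), max_eq_right (by linarith), sub_zero]

lemma sg_neg (A x : ℝ) : sg A (NN - x) = - sg A x := by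
  unfold sg
  rw [show A - (NN - x) = x - (NN - A) by ring, show NN - x - (NN - A) = A - x by ring]; ring

lemma sg_nat {A x : ℕ} (hA : A ≤ HH) (hx : x ≤ HH) : sg A x = ((A - x : ℕ) : ℝ) := by
  have := NH
  have a : (A : ℝ) ≤ HH := by exact_mod_cast hA
  have b : (x : ℝ) ≤ HH := by exact_mod_cast hx
  unfold sg
  rw [max_eq_right (a := (x : ℝ) - _) (by linarith), sub_zero]
  rcases le_total A x with h | h
  · rw [Nat.sub_eq_zero_of_le h, max_eq_right (sub_nonpos.2 (by exact_mod_cast h)), Nat.cast_zero]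
  · rw [Nat.cast_sub h, max_eq_left (sub_nonneg.2 (by exact_mod_cast h))]

@[simp] lemma FF_nil (x : ℝ) : FF [] x = 0 := rfl
@[simp] lemma PP_nil (x : ℝ) : PP [] x = 0 := rfl
lemma FF_cons (t : ℕ × ℕ) (L : List (ℕ × ℕ)) (x : ℝ) :
    FF (t :: L) x = t.1 * sg t.2 x ^ 2 + FF L x := by simp [FF]
lemma PP_cons (t : ℕ × ℕ) (L : List (ℕ × ℕ)) (x : ℝ) :
    PP (t :: L) x = t.1 * sg t.2 x + PP L x := by simp [PP]
lemma Sz_cons (t : ℕ × ℕ) (L : List (ℕ × ℕ)) (y : ℕ) :
    Sz (t :: L) y = cond (Nat.ble t.2 y) 0 (t.1 * (t.2 - y) ^ 2 + Sz L y) := (rfl)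
lemma Pz_cons (t : ℕ × ℕ) (L : List (ℕ × ℕ)) (y : ℕ) :
    Pz (t :: L) y = t.1 * (t.2 - y) + Pz L y := (rfl)
lemma Kz_cons (t : ℕ × ℕ) (L : List (ℕ × ℕ)) (y : ℕ) :
    Kz (t :: L) y = cond (Nat.ble t.2 y) 0 t.1 + Kz L y := (rfl)

variable {L : List (ℕ × ℕ)}

lemma FF_nonneg (x : ℝ) : 0 ≤ FF L x := by
  induction L with
  | nil => simp
  | cons t L ih => rw [FF_cons]; positivity

lemma FF_cont : Continuous (FF L) ∧ Continuous (PP L) := by
  induction L with
  | nil => exact ⟨continuous_const, continuous_const⟩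
  | cons t L ih =>
    obtain ⟨a, b⟩ := ih
    rw [funext (FF_cons t L), funext (PP_cons t L)]
    unfold sg
    constructor <;> fun_prop

lemma FF_neg (x : ℝ) : FF L (NN - x) = FF L x := by
  induction L with
  | nil => simp
  | cons t L ih => rw [FF_cons, FF_cons, ih, sg_neg, neg_sq]

lemma FF_U (h : ∀ t ∈ L, t.2 ≤ HH) (x y : ℝ) : FF L x - 2 * PP L x * (y - x) ≤ FF L y := by
  induction L with
  | nil => simp
  | cons t L ih =>
    have a := mul_le_mul_of_nonneg_left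
      (sgU (A := t.2) (by exact_mod_cast h t (by simp)) x y) (Nat.cast_nonneg (α := ℝ) t.1)
    have b := ih fun s hs => h s (by simp [hs])
    rw [FF_cons, FF_cons, PP_cons]
    linarith

lemma FF_L (h : ∀ t ∈ L, t.2 ≤ HH) {z : ℕ} {x y : ℝ} (hx : x ∈ Icc (z : ℝ) (NN - z))
    (hy : y ∈ Icc (z : ℝ) (NN - z)) :
    FF L y ≤ FF L x - 2 * PP L x * (y - x) + Kz L z * (y - x) ^ 2 := by
  induction L with
  | nil => simp [Kz]
  | cons t L ih =>
    have a := mul_le_mul_of_nonneg_left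
      (sgL (A := t.2) (by exact_mod_cast h t (by simp)) x y) (Nat.cast_nonneg (α := ℝ) t.1)
    have b := ih fun s hs => h s (by simp [hs])
    rw [FF_cons, FF_cons, PP_cons, Kz_cons]
    cases k : Nat.ble t.2 z
    · rw [cond_false, Nat.cast_add]; linarith
    · have : (t.2 : ℝ) ≤ z := by exact_mod_cast Nat.le_of_ble_eq_true k
      rw [cond_true, zero_add, sg_zero (this.trans hx.1) (by linarith [hx.2]),
        sg_zero (this.trans hy.1) (by linarith [hy.2])]
      linarith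

lemma FF_zero {x : ℝ} (h : ∀ t ∈ L, (t.2 : ℝ) ≤ x ∧ x ≤ NN - t.2) : FF L x = 0 := by
  induction L with
  | nil => simp
  | cons t L ih =>
    rw [FF_cons, ih fun s hs => h s (by simp [hs]), sg_zero (h t (by simp)).1 (h t (by simp)).2]
    simp

lemma PP_nat (h : ∀ t ∈ L, t.2 ≤ HH) {x : ℕ} (hx : x ≤ HH) : PP L x = Pz L x := by
  induction L with
  | nil => simp [Pz]
  | cons t L ih =>
    rw [PP_cons, Pz_cons, ih fun s hs => h s (by simp [hs]), sg_nat (h t (by simp)) hx]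
    push_cast; ring

lemma FF_nat (h : ∀ t ∈ L, t.2 ≤ HH) (hs : L.Pairwise fun s t => t.2 ≤ s.2) {x : ℕ} (hx : x ≤ HH) :
    FF L x = Sz L x := by
  induction L with
  | nil => simp [Sz]
  | cons t L ih =>
    rw [List.pairwise_cons] at hs
    rw [Sz_cons]
    cases k : Nat.ble t.2 x
    · rw [cond_false, FF_cons, ih (fun s hs => h s (by simp [hs])) hs.2, sg_nat (h t (by simp)) hx]
      push_cast; ring
    · have k' := Nat.le_of_ble_eq_true k
      have b : (x : ℝ) ≤ HH := by exact_mod_cast hx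
      rw [cond_true, Nat.cast_zero]
      refine FF_zero fun s hs' => ?_
      have c : (s.2 : ℝ) ≤ x := by
        rcases List.mem_cons.1 hs' with rfl | e
        · exact_mod_cast k'
        · exact_mod_cast (hs.1 s e).trans k'
      exact ⟨c, by linarith [NH]⟩

lemma Sz_le (h : ∀ t ∈ L, t.2 ≤ HH) (hs : L.Pairwise fun s t => t.2 ≤ s.2) {x : ℕ} (hx : x ≤ HH) :
    Sz L x ≤ Sz L 0 := by
  have a := FF_U h x 0
  rw [PP_nat h hx, FF_nat h hs hx, ← Nat.cast_zero (R := ℝ), FF_nat h hs (Nat.zero_le _)] at a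
  have : (0 : ℝ) ≤ Pz L x * x := by positivity
  have b : (Sz L x : ℝ) ≤ Sz L 0 := by push_cast at a; linarith
  exact_mod_cast b

lemma LL_le : ∀ t ∈ LL, t.2 ≤ HH := by decide
lemma LL_le' : ∀ t ∈ LL, t.2 ≤ 88080384 := by decide
lemma LL_s : LL.Pairwise fun s t => t.2 ≤ s.2 := by decide
lemma LL_0 : Sz LL 0 = ZZ := by decide +kernel

lemma frc_eq {α : Type} (x : ℕ) (f : ℕ → α) : frc x f = f x := by cases x <;> rfl

lemma II_sym (v : ℝ) : II (1 - v) = II v := by
  unfold II; rw [mul_sub, mul_one, FF_neg]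

lemma II_nat' {x : ℕ} (hx : x ≤ HH) : II (x / NN) = (ZZ - Sz LL x : ℕ) / ZZ := by
  have := N0; have := Z0
  unfold II
  rw [mul_div_cancel₀ _ N0.ne', FF_nat LL_le LL_s hx,
    Nat.cast_sub (LL_0 ▸ Sz_le LL_le LL_s hx)]
  field_simp

lemma II_nat {x : ℕ} (hx : x ≤ NN) : II (x / NN) = Iz x / ZZ := by
  have e : Iz x = ZZ - Sz LL (cond (Nat.ble x HH) x (NN - x)) := frc_eq _ _
  rw [e]
  cases k : Nat.ble x HH
  · have : HH < x := by simpa using Nat.not_le_of_not_ble_eq_true (by simp [k] : ¬ Nat.ble x HH = true)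
    rw [cond_false, ← II_nat' (by have := NH'; omega), ← II_sym, Nat.cast_sub hx, sub_div,
      div_self N0.ne']
  · rw [cond_true, II_nat' (Nat.le_of_ble_eq_true k)]

lemma ss_nat {x : ℕ} (hx : x ≤ HH) : ss (x / NN) = 2 * NN * Pz LL x / ZZ := by
  unfold ss; rw [mul_div_cancel₀ _ N0.ne', PP_nat LL_le hx]

lemma good : Good II ss where
  cont := by have := (FF_cont (L := LL)).1; unfold II; fun_prop
  conts := by have := (FF_cont (L := LL)).2; unfold ss; fun_prop
  up x v := by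
    have := div_le_div_of_nonneg_right (FF_U LL_le (NN * x) (NN * v)) Z0.le
    unfold II ss
    linarith [show (FF LL (NN * x) - 2 * PP LL (NN * x) * (NN * v - NN * x)) / ZZ =
      FF LL (NN * x) / ZZ - 2 * NN * PP LL (NN * x) / ZZ * (v - x) by ring]
  z0 := by
    have := II_nat' (Nat.zero_le HH)
    rwa [LL_0, Nat.sub_self, Nat.cast_zero, zero_div, zero_div] at this
  sym := II_sym
  ten := by
    have := II_nat (x := 20971520) (by decide)
    have e : Iz 20971520 = 2048372570360643584 := by decide +kernel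
    rw [e] at this
    norm_num [NN, ZZ] at this ⊢
    rw [this]; norm_num

lemma II_le (v : ℝ) : II v ≤ 1 := by
  have := div_nonneg (FF_nonneg (L := LL) (NN * v)) Z0.le
  unfold II; linarith

lemma II_one {v : ℝ} (h1 : 21 / 50 ≤ v) (h2 : v ≤ 29 / 50) : II v = 1 := by
  unfold II
  rw [FF_zero, zero_div, sub_zero]
  intro t ht
  have : (t.2 : ℝ) ≤ 88080384 := by exact_mod_cast LL_le' t ht
  norm_num [NN]
  constructor <;> linarith

lemma II_top (v : ℝ) (h : v ≤ 21 / 50) : II v ≤ 1 - 4 * (21 / 50 - v) ^ 2 := by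
  have e : FF LL (NN * v) = _ := FF_cons _ _ _
  have a := FF_nonneg (L := LL.tail) (NN * v)
  have b : sg (88080384 : ℕ) (NN * v) = NN * (21 / 50 - v) := by
    unfold sg
    norm_num [NN]
    rw [max_eq_left (by linarith), max_eq_right (by linarith)]; ring
  unfold II
  rw [e, b, sub_le_sub_iff_left, le_div_iff₀ Z0]
  refine le_trans ?_ (le_add_of_nonneg_right a)
  norm_num [NN, ZZ]
  nlinarith [sq_nonneg (21 / 50 - v)]

lemma II_L {z : ℕ} {x v : ℝ} (hx : NN * x ∈ Icc (z : ℝ) (NN - z))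
    (hv : NN * v ∈ Icc (z : ℝ) (NN - z)) :
    II x + ss x * (v - x) - Kz LL z * NN ^ 2 / ZZ * (v - x) ^ 2 ≤ II v := by
  have := div_le_div_of_nonneg_right (FF_L LL_le hx hv) Z0.le
  unfold II ss
  linarith [show (FF LL (NN * x) - 2 * PP LL (NN * x) * (NN * v - NN * x) +
      Kz LL z * (NN * v - NN * x) ^ 2) / ZZ = FF LL (NN * x) / ZZ -
      2 * NN * PP LL (NN * x) / ZZ * (v - x) + Kz LL z * NN ^ 2 / ZZ * (v - x) ^ 2 by ring]

end Pool.Agent.P.MP_b7645d_gt.X
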