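import Pool.Agent.P.MP_b7645d_gt.X.Chk

/-! Running the checker. -/

set_option autoImplicit false

namespace Pool.Agent.P.MP_b7645d_gt.X

theorem run : chk 16 0 209715200 209715200 = true := by decide +kernel

end Pool.Agent.P.MP_b7645d_gt.X
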