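import Pool.Agent.P.MP_b7645d_gt.X.Fn

/-! Soundness of the integer checker. -/

set_option autoImplicit false

open MeasureTheory Set

namespace Pool.Agent.P.MP_b7645d_gt.X

lemma mn_le (x y : ℕ) : mn x y ≤ x ∧ mn x y ≤ y ∧ (mn x y = x ∨ mn x y = y) := by
  unfold mn
  cases k : Nat.ble x y
  · have : ¬ x ≤ y := Nat.not_le_of_not_ble_eq_true (by simp [k])
    rw [cond_false]; omega
  · have := Nat.le_of_ble_eq_true k
    rw [cond_true]; omega

lemma rt_sq (Y u : ℕ) : rt Y u ^ 2 ≤ Y := by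
  unfold rt
  rw [frc_eq, frc_eq, frc_eq]
  generalize nw Y (nw Y u) = v
  obtain ⟨a, b, -⟩ := mn_le v (Nat.div Y v)
  calc _ = mn v (Nat.div Y v) * mn v (Nat.div Y v) := sq _
    _ ≤ v * (Y / v) := Nat.mul_le_mul a b
    _ ≤ Y := Nat.mul_div_le Y v

lemma yy_le (w c0 c1 x i : ℕ) (h : c0 + c1 * x ≤ w * i) :
    yy w c0 c1 x i * (w * i) ^ 2 + 2 ^ 40 * (c0 + c1 * x) ^ 2 ≤ 2 ^ 40 * (w * i) ^ 2 := by
  have e : yy w c0 c1 x i = (((w * i) ^ 2 - (c0 + c1 * x) ^ 2) <<< 40) / (w * i) ^ 2 := frc_eq _ _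
  have h2 := Nat.pow_le_pow_left h 2
  rw [e, Nat.shiftLeft_eq]
  generalize (w * i) ^ 2 = D at *
  generalize (c0 + c1 * x) ^ 2 = E at *
  generalize 2 ^ 40 = S
  have := Nat.div_mul_le_self ((D - E) * S) D
  obtain ⟨k, rfl⟩ := Nat.exists_eq_add_of_le h2
  rw [Nat.add_sub_cancel_left] at this ⊢
  nlinarith

lemma sgm_ex (g0 i0 g1 i1 : ℕ) : ∃ μ e0 e1 : ℕ, sgm g0 i0 g1 i1 = 2 * μ + e0 + e1 ∧
    e0 * i0 + μ * i0 ≤ g0 * i0 ∧ e0 * i1 + μ * i0 ≤ g0 * i0 ∧
    e1 * i0 + μ * i1 ≤ g1 * i1 ∧ e1 * i1 + μ * i1 ≤ g1 * i1 := by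
  have e : sgm g0 i0 g1 i1 = cond (Nat.ble g0 g1)
      (cond (Nat.ble i0 i1) (g0 + g1) (2 * g0 + (g1 - g0) * i1 / i0))
      (cond (Nat.ble i1 i0) (g0 + g1) (2 * g1 + (g0 - g1) * i0 / i1)) := (rfl)
  rw [e]
  cases k : Nat.ble g0 g1
  · have : ¬ g0 ≤ g1 := Nat.not_le_of_not_ble_eq_true (by simp [k])
    obtain ⟨d, rfl⟩ := Nat.exists_eq_add_of_le (le_of_not_ge this)
    rw [cond_false, Nat.add_sub_cancel_left]
    cases l : Nat.ble i1 i0
    · have : ¬ i1 ≤ i0 := Nat.not_le_of_not_ble_eq_true (by simp [l])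
      have a := Nat.div_mul_le_self (d * i0) i1
      have b := Nat.mul_le_mul_left (d * i0 / i1) (le_of_not_ge this)
      exact ⟨g1, d * i0 / i1, 0, rfl, by nlinarith, by nlinarith, by simp, by simp⟩
    · have a := Nat.mul_le_mul_left d (Nat.le_of_ble_eq_true l)
      exact ⟨g1, d, 0, by rw [cond_true]; ring, by nlinarith, by nlinarith, by simp, by simp⟩
  · obtain ⟨d, rfl⟩ := Nat.exists_eq_add_of_le (Nat.le_of_ble_eq_true k)
    rw [cond_true, Nat.add_sub_cancel_left]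
    cases l : Nat.ble i0 i1
    · have : ¬ i0 ≤ i1 := Nat.not_le_of_not_ble_eq_true (by simp [l])
      have a := Nat.div_mul_le_self (d * i1) i0
      have b := Nat.mul_le_mul_left (d * i1 / i0) (le_of_not_ge this)
      exact ⟨g0, 0, d * i1 / i0, rfl, by simp, by simp, by nlinarith, by nlinarith⟩
    · have a := Nat.mul_le_mul_left d (Nat.le_of_ble_eq_true l)
      exact ⟨g0, 0, d, by rw [cond_true]; ring, by simp, by simp, by nlinarith, by nlinarith⟩

lemma aff_nat (w c0 c1 x : ℕ) (hw : 0 < w) :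
    (c0 : ℝ) / (ZZ * w) + c1 * NN / (ZZ * w) * (x / NN) = (c0 + c1 * x : ℕ) / (ZZ * w) := by
  have := N0; have := Z0
  have : (0 : ℝ) < w := by exact_mod_cast hw
  push_cast; field_simp

lemma node {w c0 c1 x g : ℕ} (hw : 0 < w) (hx : x ≤ NN) (h : c0 + c1 * x ≤ w * Iz x)
    (hg : g ^ 2 ≤ yy w c0 c1 x (Iz x)) :
    ((g : ℝ) / 2 ^ 20 * II (x / NN)) ^ 2 + (c0 / (ZZ * w) + c1 * NN / (ZZ * w) * (x / NN)) ^ 2 ≤
      II (x / NN) ^ 2 := by
  have a := (Nat.add_le_add_right (Nat.mul_le_mul_right _ hg) _).trans (yy_le w c0 c1 x _ h)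
  have b : ((g ^ 2 * (w * Iz x) ^ 2 + 2 ^ 40 * (c0 + c1 * x) ^ 2 : ℕ) : ℝ) ≤
      (2 ^ 40 * (w * Iz x) ^ 2 : ℕ) := by exact_mod_cast a
  have := Z0
  have : (0 : ℝ) < w := by exact_mod_cast hw
  rw [aff_nat _ _ _ _ hw, II_nat hx]
  generalize c0 + c1 * x = E at *
  push_cast at b
  refine le_of_mul_le_mul_left ?_ (by positivity : (0 : ℝ) < (2 ^ 20 * ZZ * w) ^ 2)
  refine le_of_eq_of_le ?_ (b.trans_eq ?_) <;> field_simp <;> ring

lemma go_cons (w c0 c1 ln n : ℕ) (T : List ℕ) (xp g0 i0 : ℕ) : go w c0 c1 ln (n :: T) xp g0 i0 =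
    frc (Nat.shiftRight (Nat.mul ln n) 20) fun dl => frc (Nat.add xp dl) fun x =>
    frc (Iz x) fun i1 => frc (yy w c0 c1 x i1) fun Y => frc (rt Y (Nat.succ g0)) fun g1 =>
    Nat.add (Nat.mul dl (sgm g0 i0 g1 i1)) (go w c0 c1 ln T x g1 i1) := (rfl)

lemma go_le {w c0 c1 ln P x1 : ℕ} (hw : 0 < w) (h1 : x1 < NN)
    (H : ∀ x, P ≤ x → x ≤ x1 → c0 + c1 * x ≤ w * Iz x) (T : List ℕ) : ∀ xp g0 : ℕ, 0 < xp → P ≤ xp →
    xp * 2 ^ 20 + ln * T.sum ≤ x1 * 2 ^ 20 → g0 ^ 2 ≤ yy w c0 c1 xp (Iz xp) →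
    (go w c0 c1 ln T xp g0 (Iz xp) : ℝ) / (2097152 * NN) ≤
      ∫ u in (xp / NN : ℝ)..(x1 / NN), gg II (c0 / (ZZ * w)) (c1 * NN / (ZZ * w)) u := by
  have n0 := N0
  induction T with
  | nil =>
    intro xp g0 _ _ h _
    have : (xp : ℝ) ≤ x1 := by exact_mod_cast (by omega : xp ≤ x1)
    simpa [go] using gg_pos _ _ (div_le_div_of_nonneg_right this n0.le)
  | cons n T ih =>
    intro xp g0 x0 xP h hg
    rw [go_cons, frc_eq, frc_eq, frc_eq, frc_eq, frc_eq]
    have hd : Nat.shiftRight (Nat.mul ln n) 20 * 2 ^ 20 ≤ ln * n := by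
      show (ln * n) >>> 20 * 2 ^ 20 ≤ _
      rw [Nat.shiftRight_eq_div_pow]; exact Nat.div_mul_le_self _ _
    generalize Nat.shiftRight (Nat.mul ln n) 20 = dl at hd
    rw [List.sum_cons, mul_add] at h
    simp only [Nat.add_eq, Nat.mul_eq]
    have hs := rt_sq (yy w c0 c1 (xp + dl) (Iz (xp + dl))) (Nat.succ g0)
    generalize rt (yy w c0 c1 (xp + dl) (Iz (xp + dl))) (Nat.succ g0) = g1 at hs
    have k1 : xp + dl ≤ x1 := by omega
    have i := ih (xp + dl) g1 (by omega) (by omega) (by rw [add_mul]; linarith) hs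
    obtain ⟨μ, e0, e1, e, a0, a1, b0, b1⟩ := sgm_ex g0 (Iz xp) g1 (Iz (xp + dl))
    have z0 := Z0
    have w0 : (0 : ℝ) < w := by exact_mod_cast hw
    have cv : ∀ {a i b j c : ℕ}, a * i + b * j ≤ c * j →
        (a : ℝ) / 2 ^ 20 * (i / ZZ) ≤ (c / 2 ^ 20 - b / 2 ^ 20) * (j / ZZ) := fun {a i b j c} h => by
      have : (a : ℝ) * i + b * j ≤ c * j := by exact_mod_cast h
      have := div_le_div_of_nonneg_right this (by positivity : (0 : ℝ) ≤ 2 ^ 20 * ZZ)
      linarith [show ((a : ℝ) * i + b * j) / (2 ^ 20 * ZZ) =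
        a / 2 ^ 20 * (i / ZZ) + b / 2 ^ 20 * (j / ZZ) by field_simp,
        show ((c : ℝ) * j) / (2 ^ 20 * ZZ) = c / 2 ^ 20 * (j / ZZ) by field_simp]
    have t := good.trap (x := xp / NN) (y := (xp + dl : ℕ) / NN) (μ := μ / 2 ^ 20)
      (e0 := e0 / 2 ^ 20) (e1 := e1 / 2 ^ 20) (by positivity)
      (div_le_div_of_nonneg_right (by exact_mod_cast Nat.le_add_right _ _) n0.le)
      ((div_lt_one n0).2 (by exact_mod_cast (by omega : xp + dl < NN))) (by positivity)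
      (by positivity) (node hw (by omega) (H xp xP (by omega)) hg)
      (node hw (by omega) (H _ (by omega) k1) hs)
      (by rw [II_nat (by omega)]; exact cv a0)
      (by rw [II_nat (by omega), II_nat (by omega)]; exact cv a1)
      (by rw [II_nat (by omega), II_nat (by omega)]; exact cv b0)
      (by rw [II_nat (by omega)]; exact cv b1)
    rw [← intervalIntegral.integral_add_adjacent_intervals (b := (xp + dl : ℕ) / NN)
      (gg_int good.cont _ _ _ _) (gg_int good.cont _ _ _ _), e, Nat.cast_add, add_div]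
    refine add_le_add (le_of_eq_of_le ?_ t) i
    push_cast; field_simp; ring

/-- the inequality for all end points in a box -/
def Box (P Q h : ℕ) : Prop := ∀ a b : ℝ, 0 < a → a < b → b < 1 → a ≤ 1 - b → P < NN * a →
  NN * a ≤ P + h → Q ≤ NN * b + h → NN * b ≤ Q → Q ≤ NN → CalAt II a b

lemma TT_sum : TT.sum = 2 ^ 20 := by decide

lemma test_ok {P Q h : ℕ} (H : test P Q h = true) : Box P Q h := by
  unfold test at H
  simp only [frc_eq, Bool.and_eq_true, Nat.ble_eq, Nat.add_eq, Nat.mul_eq, Nat.sub_eq] at H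
  obtain ⟨h0, -, h1, h2, h3, h4, h5⟩ := H
  intro a b ha hab hb _ pa ap qb bq qN
  obtain ⟨w, rfl⟩ : ∃ w, Q = P + w := ⟨Q - P, by omega⟩
  rw [Nat.add_sub_cancel_left] at h2 h3 h4 h5
  have hw : 0 < w := by omega
  generalize Iz (P + w) - Iz P = c1 at *
  generalize Iz P * (P + w) - Iz (P + w) * P = c0 at *
  generalize tp (Nat.div c1 (2 * w)) = x at *
  have n0 := N0
  have z0 := Z0
  have w0 : (0 : ℝ) < w := by exact_mod_cast hw
  have ends : ∀ y : ℕ, y ≤ NN → (c0 + c1 * y ≤ w * Iz y ↔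
      (c0 : ℝ) / (ZZ * w) + c1 * NN / (ZZ * w) * (y / NN) ≤ II (y / NN)) := fun y hy => by
    rw [aff_nat _ _ _ _ hw, II_nat hy, div_le_div_iff₀ (by positivity) z0,
      show (Iz y : ℝ) * (ZZ * w) = (w * Iz y : ℕ) * ZZ by push_cast; ring, mul_le_mul_iff_left₀ z0,
      Nat.cast_le]
  have hl : ∀ v ∈ Icc (P / NN : ℝ) ((P + w : ℕ) / NN), _ := fun v hv =>
    good.aff hv.1 hv.2 (by positivity) ((ends P (by omega)).1 h2) (by positivity)
      ((ends _ qN).1 h3)
  have g := go_le (ln := w - h - h) (P := P) (x1 := P + w - h) hw (by omega) (fun y y0 y1 =>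
    (ends y (by omega)).2 (hl _ ⟨div_le_div_of_nonneg_right (by exact_mod_cast y0) n0.le,
      div_le_div_of_nonneg_right (by exact_mod_cast (by omega : y ≤ P + w)) n0.le⟩).2) TT (P + h) _
    (by omega) (by omega) (by rw [TT_sum, ← add_mul]; exact Nat.mul_le_mul_right _ (by omega))
    (rt_sq _ (st (yy w c0 c1 (P + h) (Iz (P + h)))))
  generalize go _ _ _ _ _ _ _ _ = T at g h5
  have a1 : a ≤ (P + h : ℕ) / NN := by rw [le_div_iff₀' n0]; exact_mod_cast ap
  have a2 : ((P + w - h : ℕ) : ℝ) / NN ≤ b := by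
    rw [div_le_iff₀' n0, Nat.cast_sub (by omega)]; linarith
  have a3 := g.trans (gg_mono good.cont _ _ a1 (div_le_div_of_nonneg_right
    (by exact_mod_cast (by omega : P + h ≤ P + w - h)) n0.le) a2)
  refine ⟨_, _, fun v hv => ⟨?_, le_trans ?_ a3⟩⟩
  · have := hl v ⟨by rw [div_le_iff₀' n0]; nlinarith [hv.1], by
      rw [le_div_iff₀' n0]; nlinarith [hv.2]⟩
    rw [abs_of_nonneg this.1]; exact this.2
  have xN : x ≤ NN := by have := NH'; omega
  have u := good.up (x / NN) v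
  have e := aff_nat w c0 c1 x hw
  rw [II_nat xN, ss_nat h4] at u
  have x0 : (0 : ℝ) ≤ x / NN := by positivity
  have x1 : (x : ℝ) / NN ≤ 1 := (div_le_one n0).2 (by exact_mod_cast xN)
  have v0 : |v - x / NN| ≤ 1 := abs_le.2 ⟨by linarith [hv.1], by linarith [hv.2]⟩
  have d : |((2 * Pz LL x * w : ℕ) : ℝ) - c1| ≤
      (2 * Pz LL x * w - c1 + (c1 - 2 * Pz LL x * w) : ℕ) := by
    generalize 2 * Pz LL x * w = U
    rcases le_total U c1 with k | k
    · rw [Nat.sub_eq_zero_of_le k, zero_add, Nat.cast_sub k, abs_sub_comm,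
        abs_of_nonneg (sub_nonneg.2 (by exact_mod_cast k))]
    · rw [Nat.sub_eq_zero_of_le k, add_zero, Nat.cast_sub k,
        abs_of_nonneg (sub_nonneg.2 (by exact_mod_cast k))]
  generalize 2 * Pz LL x * w - c1 + (c1 - 2 * Pz LL x * w) = D at d h5
  have d2 : (((2 * Pz LL x * w : ℕ) : ℝ) - c1) * (v - x / NN) ≤ D := by
    refine (le_abs_self _).trans ?_
    rw [abs_mul]
    exact (mul_le_mul d v0 (abs_nonneg _) (Nat.cast_nonneg _)).trans_eq (mul_one _)
  have d3 := mul_le_mul_of_nonneg_left d2 (by positivity : (0 : ℝ) ≤ NN / (ZZ * w))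
  generalize c0 + c1 * x = E at e h5
  have h6 : ((2097152 * NN * (Iz x * w + NN * D) : ℕ) : ℝ) ≤ (T * ZZ * w + 2097152 * NN * E : ℕ) := by
    exact_mod_cast h5
  have h7 := div_le_div_of_nonneg_right h6 (by positivity : (0 : ℝ) ≤ 2097152 * NN * (ZZ * w))
  push_cast at h7 d3
  linarith [show (2097152 * NN * (Iz x * w + NN * D) : ℝ) / (2097152 * NN * (ZZ * w)) =
      Iz x / ZZ + NN / (ZZ * w) * D by field_simp,
    show (T * ZZ * w + 2097152 * NN * E : ℝ) / (2097152 * NN * (ZZ * w)) =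
      T / (2097152 * NN) + E / (ZZ * w) by field_simp,
    show (NN : ℝ) / (ZZ * w) * ((2 * Pz LL x * w - c1) * (v - x / NN)) =
      2 * NN * Pz LL x / ZZ * (v - x / NN) - c1 * NN / (ZZ * w) * v +
        c1 * NN / (ZZ * w) * (x / NN) by field_simp; ring]

lemma lcl_ok {P Q h : ℕ} (H : lcl P Q = true) : Box P Q h := by
  unfold lcl at H
  simp only [frc_eq, Nat.ble_eq, Nat.add_eq, Nat.mul_eq, Nat.sub_eq, Nat.pow_eq] at H
  intro a b ha hab hb _ pa _ _ bq qN
  have n0 := N0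
  have z0 := Z0
  have PQ : P ≤ Q := by exact_mod_cast (by nlinarith : (P : ℝ) ≤ Q)
  obtain ⟨m1, m2, m3⟩ := mn_le Q HH
  obtain ⟨k1, k2, -⟩ := mn_le P (NN - Q)
  generalize mn Q HH = y at *
  generalize mn P (NN - Q) = z at *
  have zi : ∀ v ∈ Icc a b, NN * v ∈ Icc (z : ℝ) (NN - z) := fun v hv => by
    have c1 : (z : ℝ) ≤ P := by exact_mod_cast k1
    have c2 : (z : ℝ) + Q ≤ NN := by exact_mod_cast (by omega : z + Q ≤ NN)
    constructor <;> nlinarith [hv.1, hv.2]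
  refine good.loc (κ := Kz LL z * NN ^ 2 / ZZ) (J := Iz y / ZZ) (w := (Q - P : ℕ) / NN) ha hab hb
    (fun v hv => ?_) (fun x hx v hv => II_L (zi x hx) (zi v hv)) ?_ ?_
  · rw [← II_nat (m1.trans qN)]
    rcases m3 with rfl | rfl
    · have u := good.up (y / NN) v
      have : v ≤ y / NN := by rw [le_div_iff₀' n0]; nlinarith [hv.2]
      have s0 : 0 ≤ ss (y / NN) := by rw [ss_nat m2]; positivity
      nlinarith
    · rw [II_one (v := HH / NN) (by norm_num [HH, NN]) (by norm_num [HH, NN])]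
      exact II_le v
  · rw [le_div_iff₀' n0, Nat.cast_sub PQ]; linarith
  · generalize Q - P = W at H
    have h6 : ((Kz LL z * (160000 * (NN * Iz y) ^ 2 + 98695 * (W * ZZ) ^ 2) : ℕ) : ℝ) ≤
      (789560 * Iz y * ZZ ^ 2 : ℕ) := by exact_mod_cast H
    have h7 := div_le_div_of_nonneg_right h6 (by positivity : (0 : ℝ) ≤ ZZ ^ 3)
    push_cast at h7
    refine le_of_eq_of_le ?_ (h7.trans_eq ?_) <;> field_simp
    ring

lemma leaf_ok {P Q h : ℕ} (H : leaf P Q h = true) : Box P Q h := by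
  unfold leaf at H
  simp only [Bool.or_eq_true, Nat.ble_eq, Nat.add_eq] at H
  have n0 := N0
  rcases H with H | H | H | H | H
  · intro a b _ hab _ _ pa _ _ bq _
    have : (Q : ℝ) ≤ P := by exact_mod_cast H
    nlinarith
  · intro a b _ _ _ hs pa _ qb _ _
    have : (NN : ℝ) + h ≤ P + Q := by exact_mod_cast H
    nlinarith
  · intro a b ha hab hb hs _ ap qb _ _
    have : (P : ℝ) + h + h + NN ≤ 699050 + Q := by exact_mod_cast H
    refine good.corner II_le II_top ha hab hb hs ?_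
    norm_num [NN] at *
    linarith
  · exact lcl_ok H
  · exact test_ok H

lemma chk_succ (f P Q h : ℕ) : chk (f + 1) P Q h = or (leaf P Q h)
    (frc (Nat.shiftRight h 1) fun k => frc (Nat.add P k) fun P' => frc (Nat.sub Q k) fun Q' =>
      and (Nat.beq (Nat.add k k) h) (and (chk f P Q k) (and (chk f P' Q k) (and (chk f P Q' k)
        (chk f P' Q' k))))) := (rfl)

theorem chk_ok (f : ℕ) : ∀ P Q h, chk f P Q h = true → Box P Q h := by
  induction f with
  | zero => exact fun P Q h H => leaf_ok H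
  | succ f ih =>
    intro P Q h H
    rw [chk_succ, frc_eq, frc_eq, frc_eq, Bool.or_eq_true] at H
    rcases H with H | H
    · exact leaf_ok H
    generalize Nat.shiftRight h 1 = k at H
    simp only [Bool.and_eq_true, Nat.beq_eq, Nat.add_eq, Nat.sub_eq] at H
    obtain ⟨rfl, h1, h2, h3, h4⟩ := H
    intro a b ha hab hb hs pa ap qb bq qN
    push_cast at ap qb
    have n0 := mul_pos N0 (ha.trans hab)
    rcases le_or_gt (Q : ℝ) (NN * b + k) with kb | kb
    · rcases le_or_gt (NN * a) (P + k) with ka | ka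
      · exact ih _ _ _ h1 a b ha hab hb hs pa ka kb bq qN
      · exact ih _ _ _ h2 a b ha hab hb hs (by exact_mod_cast ka) (by push_cast; linarith) kb bq qN
    · have kQ : k ≤ Q := by exact_mod_cast (by linarith : (k : ℝ) ≤ Q)
      have e := Nat.cast_sub (R := ℝ) kQ
      rcases le_or_gt (NN * a) (P + k) with ka | ka
      · exact ih _ _ _ h3 a b ha hab hb hs pa ka (by linarith) (by linarith) (by omega)
      · exact ih _ _ _ h4 a b ha hab hb hs (by exact_mod_cast ka) (by push_cast; linarith)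
          (by linarith) (by linarith) (by omega)

end Pool.Agent.P.MP_b7645d_gt.X
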