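import Pool.Agent.P.MP_b7645d_gt.X.Chord
import Pool.Agent.P.MP_b7645d_gt.X.Snd
import Pool.Agent.P.MP_b7645d_gt.X.Run

/-! The plateau of the isoperimetric profile of the cube, uniformly in the dimension. -/

set_option autoImplicit false

open Set

namespace Pool.Agent.P.MP_b7645d_gt.X

theorem cal : Cal II := by
  have key : ∀ a b : ℝ, 0 < a → a < b → b < 1 → a ≤ 1 - b → CalAt II a b := by
    intro a b ha hab hb hs
    refine chk_ok 16 0 _ _ run a b ha hab hb hs ?_ ?_ ?_ ?_ le_rfl <;> norm_num [NN] <;> linarith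
  intro a b ha hab hb
  rcases le_total a (1 - b) with h | h
  · exact key a b ha hab hb h
  · exact good.flip (key _ _ (by linarith) (by linarith) (by linarith) (by linarith))

theorem plateau {d : ℕ} (hd : 1 ≤ d) {t : ℝ} (ht : t ∈ Icc (21 / 50 : ℝ) (29 / 50)) :
    Prof d t = 1 :=
  prof_eq_one' good.cont (fun _ hu => good.pos hu.1 hu.2) good.z0 good.z1 cal hd
    ⟨by linarith [ht.1], by linarith [ht.2]⟩ (II_one ht.1 ht.2)

end Pool.Agent.P.MP_b7645d_gt.X
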