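import Pool.Agent.P.MP_b7645d_gt.Smooth
import Pool.Agent.P.MP_b7645d_gt.Upper2

/-! Tensorisation of a one dimensional functional inequality, and the link with the profile. -/

set_option autoImplicit false

open MeasureTheory ProbabilityTheory Set Real Filter Topology

namespace Pool.Agent.P.MP_b7645d_gt.X

/-- the one dimensional functional inequality for the profile `I` -/
def OneD (I : ℝ → ℝ) : Prop :=
  ∀ f : ℝ → ℝ, Differentiable ℝ f → (∃ κ > 0, ∀ s, f s ∈ Icc κ (1 - κ)) →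
    (∃ C, ∀ s, |deriv f s| ≤ C) →
    I (∫ s in Ioo (0 : ℝ) 1, f s) ≤ ∫ s in Ioo (0 : ℝ) 1, √(I (f s) ^ 2 + deriv f s ^ 2)

instance : IsProbabilityMeasure ((volume : Measure ℝ).restrict (Ioo 0 1)) := ⟨by simp⟩

lemma mink {α ι : Type} [MeasurableSpace α] [Fintype ι] {μ : Measure α} {v : ι → α → ℝ}
    (hv : ∀ i, Integrable (v i) μ) (hn : Integrable (fun s => √(∑ i, v i s ^ 2)) μ) :
    √(∑ i, (∫ s, v i s ∂μ) ^ 2) ≤ ∫ s, √(∑ i, v i s ^ 2) ∂μ := by
  set A : ι → ℝ := fun i => ∫ s, v i s ∂μ with hA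
  set N := √(∑ i, A i ^ 2) with hN
  have h0 : 0 ≤ N := Real.sqrt_nonneg _
  rcases h0.eq_or_lt with h | h
  · rw [← h]; exact integral_nonneg fun _ => Real.sqrt_nonneg _
  refine le_of_mul_le_mul_left ?_ h
  calc N * N = ∑ i, A i * A i := by
        rw [hN, Real.mul_self_sqrt (Finset.sum_nonneg fun _ _ => sq_nonneg _)]; simp only [sq]
    _ = ∫ s, ∑ i, A i * v i s ∂μ := by
        rw [integral_finsetSum _ fun i _ => (hv i).const_mul _]
        simp only [integral_const_mul, hA]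
    _ ≤ ∫ s, N * √(∑ i, v i s ^ 2) ∂μ :=
        integral_mono (integrable_finsetSum _ fun i _ => (hv i).const_mul _) (hn.const_mul _)
          fun s => Real.sum_mul_le_sqrt_mul_sqrt _ _ _
    _ = _ := integral_const_mul _ _

variable {d : ℕ}

/-- insertion of a zero first coordinate -/
noncomputable def up (d : ℕ) : (Fin d → ℝ) →L[ℝ] (Fin (d + 1) → ℝ) :=
  ContinuousLinearMap.pi (Fin.cons 0 fun j => ContinuousLinearMap.proj j)

/-- insertion of a first coordinate -/
noncomputable def emb (s : ℝ) (y : Fin d → ℝ) : Fin (d + 1) → ℝ := up d y + s • Pi.single 0 1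

lemma emb_eq (s : ℝ) (y : Fin d → ℝ) : emb s y = Fin.cons s y := by
  funext i
  refine Fin.cases ?_ (fun j => ?_) i <;> simp [emb, up]

lemma up_single (j : Fin d) : up d (Pi.single j 1) = Pi.single j.succ 1 := by
  funext i
  refine Fin.cases ?_ (fun k => ?_) i <;> simp [up, Pi.single_apply, (Fin.succ_ne_zero _).symm]

lemma continuous_emb : Continuous fun p : ℝ × (Fin d → ℝ) => emb p.1 p.2 := by
  unfold emb; fun_prop

lemma mp_emb : MeasurePreserving (fun p : ℝ × (Fin d → ℝ) => emb p.1 p.2)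
    ((volume.restrict (Ioo 0 1)).prod (volume.restrict (Q (Fin d))))
    (volume.restrict (Q (Fin (d + 1)))) := by
  rw [restrict_Q_eq_pi, restrict_Q_eq_pi]
  have e : (fun p : ℝ × (Fin d → ℝ) => emb p.1 p.2) =
      (MeasurableEquiv.piFinSuccAbove (fun _ : Fin (d + 1) => ℝ) 0).symm := by
    funext p
    simp [emb_eq, MeasurableEquiv.piFinSuccAbove_symm_apply, Fin.insertNthEquiv]
  rw [e]
  exact (measurePreserving_piFinSuccAbove
    (fun _ : Fin (d + 1) => (volume : Measure ℝ).restrict (Ioo 0 1)) 0).symm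

lemma slice {F : (Fin (d + 1) → ℝ) → ℝ} (hF : Measurable F) {C : ℝ} (hb : ∀ x, |F x| ≤ C) :
    Integrable (fun y => ∫ s in Ioo (0 : ℝ) 1, F (emb s y)) (volume.restrict (Q (Fin d))) ∧
    ∫ x in Q (Fin (d + 1)), F x = ∫ y in Q (Fin d), ∫ s in Ioo (0 : ℝ) 1, F (emb s y) := by
  have hi : Integrable (fun p : ℝ × (Fin d → ℝ) => F (emb p.1 p.2))
      ((volume.restrict (Ioo 0 1)).prod (volume.restrict (Q (Fin d)))) :=
    Integrable.of_bound (hF.comp continuous_emb.measurable).aestronglyMeasurable C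
      (Eventually.of_forall fun _ => hb _)
  exact ⟨hi.integral_prod_right, (integral_mp mp_emb F hF).trans (integral_prod_symm _ hi)⟩

lemma int_line {F : (Fin (d + 1) → ℝ) → ℝ} (hF : Measurable F) {C : ℝ} (hb : ∀ x, |F x| ≤ C)
    (y : Fin d → ℝ) : Integrable (fun s => F (emb s y)) (volume.restrict (Ioo 0 1)) :=
  Integrable.of_bound (hF.comp (by unfold emb; fun_prop)).aestronglyMeasurable C
    (Eventually.of_forall fun _ => hb _)

lemma hasDerivAt_line {f : (Fin (d + 1) → ℝ) → ℝ} (hf : Differentiable ℝ f) (y : Fin d → ℝ)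
    (s : ℝ) : HasDerivAt (fun s => f (emb s y)) (D f 0 (emb s y)) s := by
  have h : HasDerivAt (fun s : ℝ => emb s y) (Pi.single 0 1) s := by
    simpa [emb] using ((hasDerivAt_id s).smul_const
      (Pi.single 0 1 : Fin (d + 1) → ℝ)).const_add (up d y)
  exact (hf _).hasFDerivAt.comp_hasDerivAt s h

lemma GAdm.abs_le {ι : Type} [Fintype ι] [DecidableEq ι] {f : (ι → ℝ) → ℝ} (hf : GAdm f)
    (x : ι → ℝ) : f x ∈ Icc (0 : ℝ) 1 := by
  obtain ⟨κ, hκ, h⟩ := hf.range
  exact ⟨by linarith [(h x).1], by linarith [(h x).2]⟩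

lemma avg {f : (Fin (d + 1) → ℝ) → ℝ} (hf : GAdm f) :
    GAdm (fun y : Fin d → ℝ => ∫ s in Ioo (0 : ℝ) 1, f (emb s y)) ∧ ∀ j y,
      D (fun y : Fin d → ℝ => ∫ s in Ioo (0 : ℝ) 1, f (emb s y)) j y =
        ∫ s in Ioo (0 : ℝ) 1, D f j.succ (emb s y) := by
  obtain ⟨C, hC⟩ := hf.grad
  obtain ⟨κ, hκ, hr⟩ := hf.range
  have hfm := hf.diff.continuous.measurable
  have hb : ∀ x, |f x| ≤ 1 := fun x => abs_le.2 ⟨by linarith [(hr x).1], by linarith [(hr x).2]⟩
  have hm : ∀ y : Fin d → ℝ, AEStronglyMeasurable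
      (fun s : ℝ => fderiv ℝ f (emb s y) ∘L up d) (volume.restrict (Ioo 0 1)) := fun y =>
    ((((ContinuousLinearMap.compL ℝ _ _ ℝ).flip (up d)).continuous.measurable.comp
      (measurable_fderiv ℝ f)).comp (by unfold emb; fun_prop)).aestronglyMeasurable
  have hn : ∀ x, ‖fderiv ℝ f x ∘L up d‖ ≤ Fintype.card (Fin (d + 1)) * |C| * ‖up d‖ := fun x =>
    (ContinuousLinearMap.opNorm_comp_le _ _).trans
      (mul_le_mul_of_nonneg_right (norm_fderiv_le (hC x)) (norm_nonneg _))
  have h : ∀ y, HasFDerivAt (fun y : Fin d → ℝ => ∫ s in Ioo (0 : ℝ) 1, f (emb s y))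
      (∫ s in Ioo (0 : ℝ) 1, fderiv ℝ f (emb s y) ∘L up d) y := fun y =>
    hasFDerivAt_integral_of_dominated_of_fderiv_le (F := fun y s => f (emb s y))
      (F' := fun y s => fderiv ℝ f (emb s y) ∘L up d) univ_mem
      (Eventually.of_forall fun y => (int_line hfm hb y).aestronglyMeasurable)
      (int_line hfm hb y) (hm y) (Eventually.of_forall fun s y _ => hn _) (integrable_const _)
      (Eventually.of_forall fun s y _ =>
        (hf.diff _).hasFDerivAt.comp y ((up d).hasFDerivAt.add_const _))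
  have hD : ∀ j y, D (fun y : Fin d → ℝ => ∫ s in Ioo (0 : ℝ) 1, f (emb s y)) j y =
      ∫ s in Ioo (0 : ℝ) 1, D f j.succ (emb s y) := fun j y => by
    rw [D, (h y).fderiv, ContinuousLinearMap.integral_apply (Integrable.of_bound (hm y) _
      (Eventually.of_forall fun s => hn _))]
    simp only [ContinuousLinearMap.comp_apply, up_single, D]
  refine ⟨⟨fun y => (h y).differentiableAt, ⟨κ, hκ, fun y => ⟨?_, ?_⟩⟩, ⟨C, fun y j => ?_⟩⟩, hD⟩
  · simpa using integral_mono (integrable_const κ) (int_line hfm hb y) fun s => (hr _).1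
  · simpa using integral_mono (int_line hfm hb y) (integrable_const (1 - κ)) fun s => (hr _).2
  · rw [hD]
    simpa using norm_integral_le_of_norm_le_const (μ := volume.restrict (Ioo (0 : ℝ) 1))
      (f := fun s => D f j.succ (emb s y)) (C := C) (Eventually.of_forall fun s => hC _ _)

lemma bob_bdd {ι : Type} [Fintype ι] [DecidableEq ι] {I : ℝ → ℝ} {M : ℝ}
    (hM : ∀ u ∈ Icc (0 : ℝ) 1, |I u| ≤ M) {f : (ι → ℝ) → ℝ} (hf : GAdm f) :
    ∃ C, ∀ x, |√(I (f x) ^ 2 + ∑ i, D f i x ^ 2)| ≤ C := by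
  obtain ⟨C, hC⟩ := hf.grad
  refine ⟨√(M ^ 2 + ∑ _i : ι, C ^ 2), fun x => ?_⟩
  rw [abs_of_nonneg (Real.sqrt_nonneg _)]
  refine Real.sqrt_le_sqrt (add_le_add ?_ (Finset.sum_le_sum fun i _ => ?_))
  · exact sq_le_sq' (abs_le.1 (hM _ (GAdm.abs_le hf x))).1 (abs_le.1 (hM _ (GAdm.abs_le hf x))).2
  · exact sq_le_sq' (abs_le.1 (hC x i)).1 (abs_le.1 (hC x i)).2

lemma bob_meas {ι : Type} [Fintype ι] [DecidableEq ι] {I : ℝ → ℝ} (hI : Continuous I)
    {f : (ι → ℝ) → ℝ} (hf : GAdm f) :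
    Measurable fun x => √(I (f x) ^ 2 + ∑ i, D f i x ^ 2) :=
  (((hI.comp hf.diff.continuous).measurable.pow_const 2).add
    (Finset.measurable_sum _ fun i _ => (measurable_D f i).pow_const 2)).sqrt

/-- tensorisation -/
theorem tens {I : ℝ → ℝ} (hI : Continuous I) (h0 : ∀ u ∈ Icc (0 : ℝ) 1, 0 ≤ I u) (h1 : OneD I) :
    ∀ (d : ℕ) (f : (Fin d → ℝ) → ℝ), GAdm f →
      I (∫ x in Q (Fin d), f x) ≤ ∫ x in Q (Fin d), √(I (f x) ^ 2 + ∑ i, D f i x ^ 2) := by
  obtain ⟨M, hM⟩ := (isCompact_Icc (a := (0 : ℝ)) (b := 1)).exists_bound_of_continuousOn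
    hI.continuousOn
  intro d
  induction d with
  | zero =>
    intro f hf
    have : f = fun _ => f 0 := funext fun x => congrArg f (Subsingleton.elim _ _)
    rw [this]
    simpa using Real.le_sqrt_of_sq_le le_rfl
  | succ d ih =>
    intro f hf
    obtain ⟨hh, hD⟩ := avg hf
    obtain ⟨C, hC⟩ := hf.grad
    obtain ⟨B, hB⟩ := bob_bdd hM hf
    have hfm := hf.diff.continuous.measurable
    have hb : ∀ x, |f x| ≤ 1 := fun x =>
      abs_le.2 ⟨by linarith [(GAdm.abs_le hf x).1], (GAdm.abs_le hf x).2⟩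
    obtain ⟨i1, e1⟩ := slice (bob_meas hI hf) hB
    rw [(slice hfm hb).2, e1]
    refine (ih _ hh).trans (integral_mono_of_nonneg
      (Eventually.of_forall fun _ => Real.sqrt_nonneg _) i1 (Eventually.of_forall fun y => ?_))
    have hd : ∀ s, deriv (fun s => f (emb s y)) s = D f 0 (emb s y) := fun s =>
      (hasDerivAt_line hf.diff y s).deriv
    have h2 := h1 (fun s => f (emb s y)) (fun s => (hasDerivAt_line hf.diff y s).differentiableAt)
      (hf.range.imp fun κ h => ⟨h.1, fun s => h.2 _⟩) ⟨C, fun s => by rw [hd]; exact hC _ _⟩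
    simp only [hd] at h2
    set v : Fin (d + 1) → ℝ → ℝ := Fin.cons (fun s => √(I (f (emb s y)) ^ 2 + D f 0 (emb s y) ^ 2))
      fun j s => D f j.succ (emb s y) with hv
    have e2 : ∀ s, ∑ i, v i s ^ 2 = I (f (emb s y)) ^ 2 + ∑ i, D f i (emb s y) ^ 2 := fun s => by
      simp only [Fin.sum_univ_succ, hv, Fin.cons_zero, Fin.cons_succ]
      rw [Real.sq_sqrt (by positivity), add_assoc]
    have h3 := mink (μ := volume.restrict (Ioo (0 : ℝ) 1)) (v := v) (fun i => by
      refine Fin.cases ?_ (fun j => int_line (measurable_D f _) (fun x => hC x _) y) i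
      refine int_line (F := fun x => √(I (f x) ^ 2 + D f 0 x ^ 2))
        (((hI.comp hf.diff.continuous).measurable.pow_const 2).add
          ((measurable_D f 0).pow_const 2)).sqrt (C := B) (fun x => le_trans ?_ (hB x)) y
      rw [abs_of_nonneg (Real.sqrt_nonneg _), abs_of_nonneg (Real.sqrt_nonneg _)]
      refine Real.sqrt_le_sqrt (add_le_add le_rfl ?_)
      exact Finset.single_le_sum (f := fun i => D f i x ^ 2) (fun _ _ => sq_nonneg _)
        (Finset.mem_univ 0)) (by simp only [e2]; exact int_line (bob_meas hI hf) hB y)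
    simp only [e2] at h3
    refine le_trans (Real.sqrt_le_sqrt ?_) h3
    simp only [Fin.sum_univ_succ, hv, Fin.cons_zero, Fin.cons_succ, hD]
    exact add_le_add (pow_le_pow_left₀ (h0 _ (GAdm.abs_le hh y)) h2 2) le_rfl

lemma le_Iso {I : ℝ → ℝ} (hI : Continuous I) (z0 : I 0 = 0) (z1 : I 1 = 0) {b : ℝ} (hb : 0 < b) :
    ∃ L, 0 ≤ L ∧ ∀ u ∈ Icc (0 : ℝ) 1, I u ≤ b + L * Iso u := by
  obtain ⟨M, hM⟩ := (isCompact_Icc (a := (0 : ℝ)) (b := 1)).exists_bound_of_continuousOn
    hI.continuousOn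
  have hM0 : 0 ≤ M := (norm_nonneg _).trans (hM 0 (by simp))
  obtain ⟨m, hm, h⟩ := ((isCompact_Icc (a := (0 : ℝ)) (b := 1)).inter_right
    (isClosed_le continuous_const hI : IsClosed {u | b ≤ I u})).exists_forall_le'
    continuous_Iso.continuousOn (a := 0) fun u hu => Iso_pos
      ⟨hu.1.1.lt_of_ne (by rintro rfl; exact absurd hu.2 (by simp [z0, hb])),
        hu.1.2.lt_of_ne (by rintro rfl; exact absurd hu.2 (by simp [z1, hb]))⟩
  refine ⟨M / m, by positivity, fun u hu => ?_⟩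
  have h1 : 0 ≤ M / m * Iso u := mul_nonneg (by positivity) (Iso_nonneg u)
  rcases le_total (I u) b with h2 | h2
  · linarith
  · have h3 : M / m * m ≤ M / m * Iso u := mul_le_mul_of_nonneg_left (h u ⟨hu, h2⟩) (by positivity)
    rw [div_mul_cancel₀ _ hm.ne'] at h3
    linarith [(abs_le.1 (hM u hu)).2]

/-- lower bound for the profile in every dimension -/
theorem le_prof {I : ℝ → ℝ} (hI : Continuous I) (h0 : ∀ u ∈ Icc (0 : ℝ) 1, 0 ≤ I u)
    (z0 : I 0 = 0) (z1 : I 1 = 0) (h1 : OneD I) (d : ℕ) {t : ℝ} (ht : t ∈ Ioo (0 : ℝ) 1) :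
    ENNReal.ofReal (I t) ≤ Prof d t := by
  unfold Prof
  refine le_iInf fun E => le_iInf fun hE => le_iInf fun hEQ => le_iInf fun hv => ?_
  rcases eq_or_ne (Per E) ⊤ with hP | hP
  · simp [hP]
  rw [← ENNReal.ofReal_toReal hP]
  refine ENNReal.ofReal_le_ofReal (le_of_forall_pos_le_add fun ε hε => ?_)
  obtain ⟨L, hL, hIso⟩ := le_Iso hI z0 z1 (half_pos hε)
  obtain ⟨f, hf, -, e1, e2, e3⟩ := exists_smooth hE hEQ ht hv ENNReal.toReal_nonneg
    (ENNReal.ofReal_toReal hP).ge (β := ε / 2 / (L + 1)) (by positivity)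
  have i1 : IntegrableOn (fun x => Iso (f x)) (Q (Fin d)) :=
    integrableOn_Q (continuous_Iso.comp hf.diff.continuous).aestronglyMeasurable (C := 1 / 2)
      fun x _ => by rw [abs_of_nonneg (Iso_nonneg _)]; exact Iso_le_half _
  have i2 := hf.adm.integrableOn_gn
  have i3 : IntegrableOn (fun x => ε / 2 + L * Iso (f x)) (Q (Fin d)) :=
    (integrable_const _).add (i1.const_mul L)
  have h2 := tens hI h0 h1 d f hf
  have h3 : ∫ x in Q (Fin d), √(I (f x) ^ 2 + ∑ i, D f i x ^ 2) ≤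
      ∫ x in Q (Fin d), (ε / 2 + L * Iso (f x) + gn f x) := by
    refine integral_mono_of_nonneg (Eventually.of_forall fun _ => Real.sqrt_nonneg _) (i3.add i2)
      (Eventually.of_forall fun x => ?_)
    have a1 := h0 _ (GAdm.abs_le hf x)
    have a2 := hIso _ (GAdm.abs_le hf x)
    have a3 := gn_nonneg f x
    simp only [← gn_sq]
    rw [Real.sqrt_le_left (by linarith)]
    nlinarith
  rw [integral_add i3 i2, integral_add (integrable_const _) (i1.const_mul L),
    integral_const_mul] at h3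
  have h4 : L * ∫ x in Q (Fin d), Iso (f x) ≤ ε / 2 := by
    refine (mul_le_mul_of_nonneg_left e3 hL).trans ?_
    rw [mul_div_assoc', div_le_iff₀ (by positivity)]
    nlinarith
  rw [e1] at h2
  simp at h3
  linarith

/-- coordinate slabs have perimeter one -/
theorem prof_le_one {d : ℕ} (hd : 1 ≤ d) {t : ℝ} (ht : t ∈ Ioo (0 : ℝ) 1) : Prof d t ≤ 1 := by
  obtain ⟨d, rfl⟩ := Nat.exists_eq_add_of_le' hd
  have hD : ∀ (x : Fin (d + 1) → ℝ) i, D (fun x => x 0) i x = if i = 0 then 1 else 0 := fun x i => by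
    rw [D, (hasFDerivAt_apply (0 : Fin (d + 1)) x).fderiv]
    simp [Pi.single_apply, eq_comm]
  have hg : ∀ x : Fin (d + 1) → ℝ, gn (fun x => x 0) x = 1 := fun x => by simp [gn, hD]
  have key : ∀ G : ℝ → ℝ, Measurable G →
      ∫ x in Q (Fin (d + 1)), G (x 0) = ∫ s in Ioo (0 : ℝ) 1, G s := fun G hG => by
    rw [restrict_Q_eq_pi]
    exact (integral_mp (measurePreserving_eval
      (fun _ : Fin (d + 1) => (volume : Measure ℝ).restrict (Ioo 0 1)) 0) G hG).symm
  have h := prof_le (ι := Fin (d + 1)) (n := d + 1) (by simp) (W := fun x => x 0)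
    (fun x _ => by fun_prop) (C := 1) (fun x _ i => by rw [hD]; split_ifs <;> simp) t (B := 1)
    (Eventually.of_forall fun k => by
      simp only [hg, mul_one]
      rw [key (fun s => -deriv (hk k t) s) (continuous_deriv_hk k t).measurable.neg, integral_neg,
        ← integral_Ioc_eq_integral_Ioo, ← intervalIntegral.integral_of_le zero_le_one,
        intervalIntegral.integral_deriv_eq_sub (fun s _ => differentiable_hk k t s)
          ((continuous_deriv_hk k t).intervalIntegrable _ _)]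
      linarith [hk_nonneg k t 1, hk_le_one k t 0])
  rw [key (fun s => if s < t then 1 else 0)
    (Measurable.ite measurableSet_Iio measurable_const measurable_const)] at h
  have e : (∫ s in Ioo (0 : ℝ) 1, if s < t then (1 : ℝ) else 0) = t := by
    rw [show (fun s : ℝ => if s < t then (1 : ℝ) else 0) = (Iio t).indicator 1 from
      funext fun s => by simp [indicator], integral_indicator_one measurableSet_Iio,
      measureReal_restrict_apply measurableSet_Iio, inter_comm, Ioo_inter_Iio,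
      min_eq_right ht.2.le]
    simp [ht.1.le]
  simpa [e] using h

/-- the profile is one on the plateau of `I` -/
theorem prof_eq_one {I : ℝ → ℝ} (hI : Continuous I) (h0 : ∀ u ∈ Icc (0 : ℝ) 1, 0 ≤ I u)
    (z0 : I 0 = 0) (z1 : I 1 = 0) (h1 : OneD I) {d : ℕ} (hd : 1 ≤ d) {t : ℝ}
    (ht : t ∈ Ioo (0 : ℝ) 1) (hp : I t = 1) : Prof d t = 1 :=
  le_antisymm (prof_le_one hd ht) (by simpa [hp] using le_prof hI h0 z0 z1 h1 d ht)

end Pool.Agent.P.MP_b7645d_gt.X
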